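import Pool.Agent.N422.SL.Stm

/-! Project SL: the two theorems. Author: helper422. -/

set_option autoImplicit false

open Finset

namespace Pool.Agent.N422.SL

open Pool.Agent.N422.NW

/-- the truncated singular series -/
noncomputable def ssr (Q k : ℕ) (H : Finset ℕ) : ℝ :=
  ∏ p ∈ (Icc 1 Q).filter Nat.Prime, (1 - ((om H p).card : ℝ) / p) * ((1 - 1 / (p : ℝ))⁻¹) ^ k

theorem PY_one (Q : ℕ) : PY Q 1 = (Icc 1 Q).filter Nat.Prime := by
  unfold PY
  apply filter_congr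
  intro p hp
  rw [mem_Icc] at hp
  rw [Real.rpow_one]
  constructor
  · exact fun h => h.1
  · exact fun h => ⟨h, by exact_mod_cast hp.2⟩

theorem om_le {H : Finset ℕ} {p : ℕ} : (om H p).card ≤ p := by
  unfold om
  refine (card_filter_le _ _).trans ?_
  rw [card_range]

/-- upper bound sieves -/
theorem upper (hAB : S_AB) (hE : S_EIN) (hV : S_VQ) (k : ℕ) (hk : 1 ≤ k) (ε B : ℝ) (hε : 0 < ε) :
    ∃ Q0 : ℕ, ∀ Q : ℕ, Q0 ≤ Q → ∀ H : Finset ℕ, H.card = k → (∀ h ∈ H, (h : ℝ) ≤ (Q : ℝ) ^ B) →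
    ∀ c : ℕ → ℕ → ℝ, (∀ n, 0 ≤ wt Q c n) →
    (∀ n, (∀ p ∈ (Icc 1 Q).filter Nat.Prime, ∀ h ∈ H, ¬ p ∣ n + h) → 1 ≤ wt Q c n) →
    (1 - ε) * (2 * k / (Real.exp 1 * Real.log Q)) ^ k * ssr Q k H ≤ mn Q c := by
  obtain ⟨eg, heg⟩ : ∃ eg, eg = Real.exp Real.eulerMascheroniConstant := ⟨_, rfl⟩
  have heg0 : 0 < eg := by rw [heg]; exact Real.exp_pos _
  have hkr : (0 : ℝ) < k := by exact_mod_cast hk
  obtain ⟨hV1, -⟩ := hV
  rw [← heg] at hV1
  -- parameters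
  obtain ⟨ε1, hε1⟩ : ∃ ε1 : ℝ, ε1 = ε / (2 * k) := ⟨_, rfl⟩
  have hε10 : 0 < ε1 := by rw [hε1]; positivity
  obtain ⟨Q1, hQ1⟩ := hAB k 1 k (ε / 2) B hk one_pos le_rfl hkr (by positivity)
  obtain ⟨Q2, hQ2⟩ := hV1 (eg * (Real.exp ε1 - 1)) (by
    have := Real.add_one_lt_exp hε10.ne'
    have : 0 < Real.exp ε1 - 1 := by linarith
    positivity)
  refine ⟨max (max Q1 Q2) 2, ?_⟩
  intro Q hQ H hH hHB c hw0 hw1
  have hQ1' : Q1 ≤ Q := (le_max_left _ _).trans ((le_max_left _ _).trans hQ)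
  have hQ2' : Q2 ≤ Q := (le_max_right _ _).trans ((le_max_left _ _).trans hQ)
  have hQ2'' : 2 ≤ Q := (le_max_right _ _).trans hQ
  have hlQ : 0 < Real.log Q := Real.log_pos (by exact_mod_cast (by omega : 1 < Q))
  have h1 := (hQ1 Q hQ1' H hH hHB c).1 hw0 (by rw [PY_one]; exact hw1)
  have h2 := hQ2 Q hQ2'
  rw [PY_one] at h1
  refine le_trans ?_ h1
  obtain ⟨P, hP⟩ : ∃ P, P = (Icc 1 Q).filter Nat.Prime := ⟨_, rfl⟩
  have hPp : ∀ p ∈ P, p.Prime := fun p hp => by rw [hP, mem_filter] at hp; exact hp.2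
  obtain ⟨W, hW⟩ : ∃ W : ℝ, W = ∏ p ∈ P, (1 - 1 / (p : ℝ)) := ⟨_, rfl⟩
  obtain ⟨U, hU⟩ : ∃ U : ℝ, U = ∏ p ∈ P, (1 - ((om H p).card : ℝ) / p) := ⟨_, rfl⟩
  rw [← hP, ← hW] at h2
  have hW0 : 0 < W := by
    rw [hW]
    refine prod_pos fun p hp => ?_
    have := (hPp p hp).two_le
    have h3 : (2 : ℝ) ≤ p := by exact_mod_cast this
    have h4 : 1 / (p : ℝ) ≤ 1 / 2 := one_div_le_one_div_of_le (by norm_num) h3
    linarith
  have hU0 : 0 ≤ U := by
    rw [hU]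
    refine prod_nonneg fun p hp => ?_
    have h3 : (0 : ℝ) < p := by exact_mod_cast (hPp p hp).pos
    rw [sub_nonneg, div_le_one h3]
    exact_mod_cast om_le
  have hss : ssr Q k H = U * (W⁻¹) ^ k := by
    unfold ssr
    rw [← hP, prod_mul_distrib, ← hU, prod_pow, prod_inv_distrib, ← hW]
  rw [hss, ← hP, ← hU]
  -- the exponential integral
  have h5 : (2 * k : ℝ) ^ k * eg ^ k * Real.exp (-k) * Real.exp (-(ε / 2)) ≤
      Real.exp (k * Ein (2 * k * 1) - k - ε / 2) := by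
    have h6 := hE.1 (2 * k * 1) (by positivity)
    have h7 : (2 * k : ℝ) ^ k * eg ^ k * Real.exp (-k) * Real.exp (-(ε / 2)) =
        Real.exp (k * (Real.log (2 * k * 1) + Real.eulerMascheroniConstant) - k - ε / 2) := by
      rw [mul_one, heg, ← Real.exp_nat_mul]
      have e1 : (2 * k : ℝ) ^ k = Real.exp (k * Real.log (2 * k)) := by
        rw [Real.exp_nat_mul, Real.exp_log (by positivity)]
      rw [e1, ← Real.exp_add, ← Real.exp_add, ← Real.exp_add]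
      congr 1
      ring
    rw [h7]
    apply Real.exp_le_exp.2
    have := mul_le_mul_of_nonneg_left h6 hkr.le
    linarith
  have h8 : (W⁻¹) ^ k ≤ (eg * Real.exp ε1 * Real.log Q) ^ k := by
    apply pow_le_pow_left₀ (by positivity)
    refine h2.trans (le_of_eq ?_)
    ring
  have h9 : Real.exp ε1 ^ k = Real.exp (ε / 2) := by
    rw [← Real.exp_nat_mul, hε1]
    congr 1
    field_simp
  have h10 : (1 - ε) ≤ Real.exp (-ε) := by
    have := Real.add_one_le_exp (-ε)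
    linarith
  have h11 : 0 ≤ (2 * k / (Real.exp 1 * Real.log Q)) ^ k * (U * (W⁻¹) ^ k) := by positivity
  calc (1 - ε) * (2 * k / (Real.exp 1 * Real.log Q)) ^ k * (U * (W⁻¹) ^ k)
      = (1 - ε) * ((2 * k / (Real.exp 1 * Real.log Q)) ^ k * (U * (W⁻¹) ^ k)) := by ring
    _ ≤ Real.exp (-ε) * ((2 * k / (Real.exp 1 * Real.log Q)) ^ k * (U * (W⁻¹) ^ k)) :=
        mul_le_mul_of_nonneg_right h10 h11
    _ ≤ Real.exp (-ε) * ((2 * k / (Real.exp 1 * Real.log Q)) ^ k * (U * (eg * Real.exp ε1 * Real.log Q) ^ k)) := by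
        apply mul_le_mul_of_nonneg_left _ (Real.exp_pos _).le
        apply mul_le_mul_of_nonneg_left _ (by positivity)
        exact mul_le_mul_of_nonneg_left h8 hU0
    _ = ((2 * k : ℝ) ^ k * eg ^ k * Real.exp (-k) * Real.exp (-(ε / 2))) * U := by
        have e1 : Real.exp (-(k : ℝ)) = (Real.exp 1 ^ k)⁻¹ := by
          rw [Real.exp_neg, ← Real.exp_nat_mul, mul_one]
        have e2 : Real.exp (-ε) * Real.exp (ε / 2) = Real.exp (-(ε / 2)) := by
          rw [← Real.exp_add]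
          congr 1
          ring
        rw [mul_pow, mul_pow, h9, e1, div_pow, mul_pow (Real.exp 1), ← e2]
        have h12 : Real.log Q ^ k ≠ 0 := by positivity
        have h13 : Real.exp 1 ^ k ≠ 0 := by positivity
        field_simp
    _ ≤ Real.exp (k * Ein (2 * k * 1) - k - ε / 2) * U := mul_le_mul_of_nonneg_right h5 hU0

/-- upper bound sieves for smaller primes -/
theorem upper_s (hAB : S_AB) (hE : S_EIN) (k : ℕ) (hk : 1 ≤ k) (s ε B : ℝ) (hs1 : 1 ≤ s) (hs : s < 2 * k)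
    (hε : 0 < ε) :
    ∃ Q0 : ℕ, ∀ Q : ℕ, Q0 ≤ Q → ∀ H : Finset ℕ, H.card = k → (∀ h ∈ H, (h : ℝ) ≤ (Q : ℝ) ^ B) →
    ∀ c : ℕ → ℕ → ℝ, (∀ n, 0 ≤ wt Q c n) →
    (∀ n, (∀ p ∈ PY Q (1 / s), ∀ h ∈ H, ¬ p ∣ n + h) → 1 ≤ wt Q c n) →
    (1 - ε) * Real.exp ((2 * k - s) ^ 2 / (4 * k)) * ∏ p ∈ PY Q (1 / s), (1 - ((om H p).card : ℝ) / p) ≤
      mn Q c := by
  have hkr : (0 : ℝ) < k := by exact_mod_cast hk
  have hs0 : 0 < s := by linarith
  obtain ⟨x, hx⟩ : ∃ x : ℝ, x = (2 * k - s) / k := ⟨_, rfl⟩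
  have h2ks : 0 < 2 * k - s := by linarith
  have hx0 : 0 < x := by rw [hx]; positivity
  have hkx : k * x = 2 * k - s := by rw [hx]; field_simp
  obtain ⟨Q0, hQ0⟩ := hAB k (1 / s) (s * x / 2) ε B hk (by positivity)
    ((div_le_one hs0).2 hs1) (by positivity) hε
  refine ⟨Q0, fun Q hQ H hH hHB c hc0 hc1 => le_trans ?_ ((hQ0 Q hQ H hH hHB c).1 hc0 hc1)⟩
  have hprod : 0 ≤ ∏ p ∈ PY Q (1 / s), (1 - ((om H p).card : ℝ) / p) := by
    refine prod_nonneg fun p hp => ?_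
    unfold PY at hp
    rw [mem_filter] at hp
    have h3 : (0 : ℝ) < p := by exact_mod_cast hp.2.1.pos
    rw [sub_nonneg, div_le_one h3]
    exact_mod_cast om_le
  apply mul_le_mul_of_nonneg_right _ hprod
  have e1 : 2 * (s * x / 2) * (1 / s) = x := by field_simp
  rw [e1]
  have h1 := hE.2 x hx0.le
  have h2 := mul_le_mul_of_nonneg_left h1 hkr.le
  have h3 : k * (x - x ^ 2 / 4) - s * x / 2 = k * x ^ 2 / 4 := by
    have : s = 2 * k - k * x := by linarith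
    rw [this]
    ring
  have h4 : (2 * k - s) ^ 2 / (4 * k) = k * x ^ 2 / 4 := by
    rw [← hkx]
    field_simp
  have h5 : (1 - ε) ≤ Real.exp (-ε) := by
    have := Real.add_one_le_exp (-ε)
    linarith
  calc (1 - ε) * Real.exp ((2 * k - s) ^ 2 / (4 * k)) ≤ Real.exp (-ε) * Real.exp ((2 * k - s) ^ 2 / (4 * k)) :=
        mul_le_mul_of_nonneg_right h5 (Real.exp_pos _).le
    _ = Real.exp (k * x ^ 2 / 4 - ε) := by
        rw [← Real.exp_add, h4]
        congr 1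
        ring
    _ ≤ Real.exp (k * Ein x - s * x / 2 - ε) := Real.exp_le_exp.2 (by linarith)

/-- lower bound sieves -/
theorem lower (hAB : S_AB) (hE : S_EIN) (k : ℕ) (hk : 1 ≤ k) (s B : ℝ) (hs1 : 1 ≤ s)
    (hs : s < 2 * k - 2 * Real.sqrt (k * Real.log 2)) :
    ∃ Q0 : ℕ, ∀ Q : ℕ, Q0 ≤ Q → ∀ H : Finset ℕ, H.card = k → (∀ h ∈ H, (h : ℝ) ≤ (Q : ℝ) ^ B) →
    ∀ c : ℕ → ℕ → ℝ, (∀ n, (∃ p ∈ PY Q (1 / s), ∃ h ∈ H, p ∣ n + h) → wt Q c n ≤ 0) → mn Q c ≤ 0 := by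
  have hkr : (0 : ℝ) < k := by exact_mod_cast hk
  have hs0 : 0 < s := by linarith
  have hl2 : 0 < Real.log 2 := Real.log_pos (by norm_num)
  obtain ⟨x, hx⟩ : ∃ x : ℝ, x = (2 * k - s) / k := ⟨_, rfl⟩
  have hsq : 0 ≤ Real.sqrt (k * Real.log 2) := Real.sqrt_nonneg _
  have h2ks : 0 < 2 * k - s := by
    have : 0 < Real.sqrt (k * Real.log 2) := Real.sqrt_pos.2 (by positivity)
    linarith
  have hx0 : 0 < x := by rw [hx]; positivity
  have hkx : k * x = 2 * k - s := by rw [hx]; field_simp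
  have hgap : Real.log 2 < k * x ^ 2 / 4 := by
    have h1 : (2 * Real.sqrt (k * Real.log 2)) ^ 2 < (2 * k - s) ^ 2 := by
      apply pow_lt_pow_left₀ (by linarith) (by positivity) (by norm_num)
    have h2 : (2 * Real.sqrt (k * Real.log 2)) ^ 2 = 4 * (k * Real.log 2) := by
      rw [mul_pow, Real.sq_sqrt (by positivity)]
      norm_num
    rw [h2, ← hkx] at h1
    have h3 : k * (4 * Real.log 2) < k * (k * x ^ 2) := by nlinarith
    have h4 := lt_of_mul_lt_mul_left h3 hkr.le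
    linarith
  obtain ⟨Q0, hQ0⟩ := hAB k (1 / s) (s * x / 2) (k * x ^ 2 / 4 - Real.log 2) B hk (by positivity)
    ((div_le_one hs0).2 hs1) (by positivity) (by linarith)
  refine ⟨Q0, fun Q hQ H hH hHB c hc => (hQ0 Q hQ H hH hHB c).2 ?_ hc⟩
  have e1 : 2 * (s * x / 2) * (1 / s) = x := by field_simp
  rw [e1]
  have h1 := hE.2 x hx0.le
  have h2 := mul_le_mul_of_nonneg_left h1 hkr.le
  have h3 : k * (x - x ^ 2 / 4) - s * x / 2 = k * x ^ 2 / 4 := by
    have : s = 2 * k - k * x := by linarith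
    rw [this]
    ring
  linarith

/-- the mean over a period -/
theorem mn_period (Q : ℕ) (c : ℕ → ℕ → ℝ) :
    (∑ n ∈ range Q.factorial, wt Q c n) / (Q.factorial : ℝ) = mn Q c := by
  have hN0 : 0 < Q.factorial := Nat.factorial_pos _
  have hNr : (0 : ℝ) < Q.factorial := by exact_mod_cast hN0
  unfold wt mn
  rw [sum_comm, sum_div]
  apply sum_congr rfl
  intro d hd
  rw [mem_Icc] at hd
  obtain ⟨e, he⟩ := Nat.dvd_factorial (by omega : 0 < d) hd.2
  have hd0 : (0 : ℝ) < d := by exact_mod_cast (by omega : 0 < d)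
  have he0 : (0 : ℝ) < e := by
    have : 0 < e := by
      rcases Nat.eq_zero_or_pos e with h | h
      · rw [h, mul_zero] at he; omega
      · exact h
    exact_mod_cast this
  have h1 : ∀ e : ℕ, ∑ n ∈ range (d * e), c d (n % d) = e * ∑ a ∈ range d, c d a := by
    intro e
    induction e with
    | zero => simp
    | succ e ih =>
      rw [Nat.mul_succ, sum_range_add, ih]
      have h2 : ∑ x ∈ range d, c d ((d * e + x) % d) = ∑ a ∈ range d, c d a := by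
        apply sum_congr rfl
        intro x hx
        rw [Nat.mul_add_mod, Nat.mod_eq_of_lt (mem_range.1 hx)]
      rw [h2]
      push_cast
      ring
  rw [he, h1]
  push_cast
  field_simp

end Pool.Agent.N422.SL
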