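import Pool.Agent.N422.SL.Stm
import Pool.Agent.N422.NW.AR

/-! Project SL, part AR (helper568, after NW/AR of helper92): from the model to periodic functions -/

set_option autoImplicit false

open Finset

namespace Pool.Agent.N422.SL

open Pool.Agent.N422.NW

section

variable {N : ℕ} (q : Fin N → ℕ) (Om : Fin N → Finset ℕ)

/-- the set of the places at which `x` is hit -/
def AR_hit (x : ℕ) : Finset (Fin N) := univ.filter (fun i => x % q i ∈ Om i)

theorem AR_mem (x : ℕ) (i : Fin N) : i ∈ AR_hit q Om x ↔ x % q i ∈ Om i := by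
  simp [AR_hit]

theorem AR_per (D : ℕ) (i : Fin N) (hD : q i ∣ D) (x : ℕ) :
    i ∈ AR_hit q Om (x + D) ↔ i ∈ AR_hit q Om x := by
  obtain ⟨e, rfl⟩ := hD
  rw [AR_mem, AR_mem, Nat.add_mul_mod_self_left]

/-- the local law -/
noncomputable def AR_lm (T : Finset (Fin N)) (i : Fin N) : ℝ :=
  if i ∈ T then ((Om i).card : ℝ) / q i else 1 - ((Om i).card : ℝ) / q i

theorem AR_count (i : Fin N) (hq : 0 < q i) (hO : Om i ⊆ range (q i)) (T : Finset (Fin N)) :
    (∑ y ∈ range (q i), (if (i ∈ AR_hit q Om y ↔ i ∈ T) then (1 : ℝ) else 0)) / q i = AR_lm q Om T i := by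
  have hq0 : (0 : ℝ) < q i := by exact_mod_cast hq
  have h1 : ∑ y ∈ range (q i), (if i ∈ AR_hit q Om y then (1 : ℝ) else 0) = (Om i).card := by
    rw [← Finset.sum_filter, Finset.sum_const, nsmul_eq_mul, mul_one]
    congr 1
    congr 1
    ext y
    rw [mem_filter, AR_mem, mem_range]
    constructor
    · rintro ⟨h2, h3⟩
      rwa [Nat.mod_eq_of_lt h2] at h3
    · intro h2
      have h3 := mem_range.1 (hO h2)
      exact ⟨h3, by rwa [Nat.mod_eq_of_lt h3]⟩
  unfold AR_lm
  by_cases hT : i ∈ T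
  · rw [if_pos hT]
    simp only [hT, iff_true]
    rw [h1]
  · rw [if_neg hT]
    simp only [hT, iff_false]
    have h2 : ∑ y ∈ range (q i), (if ¬ i ∈ AR_hit q Om y then (1 : ℝ) else 0) = q i - (Om i).card := by
      rw [← h1, eq_sub_iff_add_eq, ← Finset.sum_add_distrib]
      have h3 : ∀ y ∈ range (q i), ((if ¬ i ∈ AR_hit q Om y then (1 : ℝ) else 0) +
          if i ∈ AR_hit q Om y then (1 : ℝ) else 0) = 1 := by
        intro y _
        by_cases h : i ∈ AR_hit q Om y
        · simp [h]
        · simp [h]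
      rw [Finset.sum_congr rfl h3, Finset.sum_const, Finset.card_range, nsmul_eq_mul, mul_one]
    rw [h2, sub_div, div_self hq0.ne']

/-- independence -/
theorem AR_ind (hinj : Function.Injective q) (hp : ∀ i, (q i).Prime) (hO : ∀ i, Om i ⊆ range (q i)) (M : ℕ)
    (hM : 0 < M) (hqM : ∀ i, q i ∣ M) (T S : Finset (Fin N)) (D : ℕ) (G : ℕ → ℝ)
    (hG : Function.Periodic G D) (hDM : D ∣ M) (hS : ∀ i ∈ S, ¬ q i ∣ D) :
    ∑ x ∈ range M, (if ∀ i ∈ S, (i ∈ AR_hit q Om x ↔ i ∈ T) then G x else 0) =
      (∏ i ∈ S, AR_lm q Om T i) * ∑ x ∈ range M, G x := by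
  classical
  induction S using Finset.induction_on with
  | empty => simp
  | insert j S hj ih =>
    have ih' := ih (fun i hi => hS i (Finset.mem_insert_of_mem hi))
    set M' : ℕ := ordCompl[q j] M with hM'
    have hcop : (q j).Coprime M' := Nat.coprime_ordCompl (hp j) hM.ne'
    have hM'M : M' ∣ M := Nat.ordCompl_dvd M (q j)
    have hdv : ∀ e : ℕ, e ∣ M → (q j).Coprime e → e ∣ M' := by
      intro e he hc
      have h1 : e ∣ ordProj[q j] M * ordCompl[q j] M := by
        rw [Nat.ordProj_mul_ordCompl_eq_self]; exact he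
      exact Nat.Coprime.dvd_of_dvd_mul_left (Nat.Coprime.pow_right _ hc.symm) h1
    have hDM' : D ∣ M' := hdv D hDM (((hp j).coprime_iff_not_dvd).mpr
      (hS j (Finset.mem_insert_self _ _)))
    have hqM' : ∀ i ∈ S, q i ∣ M' := by
      intro i hi
      apply hdv _ (hqM i)
      rw [Nat.coprime_primes (hp j) (hp i)]
      intro h
      exact hj (hinj h ▸ hi)
    have hu' : Function.Periodic
        (fun x => if ∀ i ∈ S, (i ∈ AR_hit q Om x ↔ i ∈ T) then G x else 0) M' := by
      intro x
      have h1 := AR_periodic_dvd G hG hDM' x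
      have h2 : (∀ i ∈ S, (i ∈ AR_hit q Om (x + M') ↔ i ∈ T)) ↔
          (∀ i ∈ S, (i ∈ AR_hit q Om x ↔ i ∈ T)) := by
        constructor
        · intro h i hi; rw [← AR_per q Om M' i (hqM' i hi) x]; exact h i hi
        · intro h i hi; rw [AR_per q Om M' i (hqM' i hi) x]; exact h i hi
      simp only [h1, h2]
    have hv' : Function.Periodic (fun x => if (j ∈ AR_hit q Om x ↔ j ∈ T) then (1 : ℝ) else 0) (q j) := by
      intro x
      simp only [AR_per q Om (q j) j dvd_rfl x]
    have h3 := AR_one M (q j) M' (hp j).pos hcop (hqM j) hM'M _ _ hu' hv'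
    rw [AR_count q Om j (hp j).pos (hO j) T, ih'] at h3
    rw [Finset.prod_insert hj, mul_assoc, ← h3]
    apply Finset.sum_congr rfl
    intro x _
    simp only [Finset.forall_mem_insert]
    by_cases h4 : (j ∈ AR_hit q Om x ↔ j ∈ T)
    · simp [h4]
    · simp [h4]

theorem AR_lm_pos (hO : ∀ i, 0 < (Om i).card ∧ (Om i).card < q i) (T : Finset (Fin N)) (i : Fin N) :
    0 < AR_lm q Om T i := by
  have h0 : (0 : ℝ) < (Om i).card := by exact_mod_cast (hO i).1
  have h1 : ((Om i).card : ℝ) < q i := by exact_mod_cast (hO i).2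
  have hq0 : (0 : ℝ) < q i := h0.trans h1
  unfold AR_lm
  split_ifs
  · positivity
  · have : ((Om i).card : ℝ) / q i < 1 := by rw [div_lt_one hq0]; exact h1
    linarith

end

theorem t_AR2 : S_AR2 := by
  classical
  intro N q Om ν n Q M F hinj hp hO hM hqM hF hν
  have hO1 : ∀ i, Om i ⊆ range (q i) := fun i => (hO i).1
  have hO2 : ∀ i, 0 < (Om i).card ∧ (Om i).card < q i := fun i => (hO i).2
  set pat : ℕ → Finset (Fin N) := AR_hit q Om with hpat
  set W : ℕ → ℝ := fun x => ∑ d ∈ Icc 1 Q, F d x with hWd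
  set mu : Finset (Fin N) → ℝ := muT (fun i => ((Om i).card : ℝ) / q i) with hmu
  have hmuE : ∀ T, mu T = ∏ i, AR_lm q Om T i := fun T => rfl
  have hmu0 : ∀ T, 0 < mu T := by
    intro T
    rw [hmuE]
    exact Finset.prod_pos fun i _ => AR_lm_pos q Om hO2 T i
  have hM0 : (0 : ℝ) < M := by exact_mod_cast hM
  have hpatT : ∀ (x : ℕ) (T : Finset (Fin N)), pat x = T ↔ ∀ i, (i ∈ T ↔ x % q i ∈ Om i) := by
    intro x T
    constructor
    · rintro rfl i
      exact AR_mem q Om x i
    · intro h
      ext i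
      exact (AR_mem q Om x i).trans (h i).symm
  have hpatI : ∀ (x : ℕ) (T : Finset (Fin N)), pat x = T ↔
      ∀ i ∈ (univ : Finset (Fin N)), (i ∈ AR_hit q Om x ↔ i ∈ T) := by
    intro x T
    constructor
    · rintro rfl i _
      exact Iff.rfl
    · intro h
      ext i
      exact h i (Finset.mem_univ i)
  -- the number of the `x` in a class
  have hcnt : ∀ T, ∑ x ∈ range M, (if pat x = T then (1 : ℝ) else 0) = M * mu T := by
    intro T
    have h1 := AR_ind q Om hinj hp hO1 M hM hqM T univ 1 (fun _ => (1 : ℝ)) (fun _ => rfl) (one_dvd M)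
      (fun i _ h => (hp i).one_lt.ne' (Nat.dvd_one.1 h))
    rw [Finset.sum_const, Finset.card_range, nsmul_eq_mul, mul_one, ← hmuE, mul_comm] at h1
    rw [← h1]
    refine Finset.sum_congr rfl fun x _ => ?_
    simp only [hpatI]
  -- the functions on the states
  set tr : (ℕ → ℝ) → Finset (Fin N) → ℝ := fun u T =>
    1 / (M * mu T) * ∑ x ∈ range M, (if pat x = T then u x else 0) with htr
  -- the level
  have hlev : ∀ d ∈ Icc 1 Q, ∀ T T' : Finset (Fin N),
      (∀ i ∈ univ.filter (fun i => q i ∣ d), (i ∈ T ↔ i ∈ T')) → tr (F d) T = tr (F d) T' := by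
    intro d hd
    set S : Finset (Fin N) := univ.filter (fun i => q i ∣ d) with hS
    have key : ∀ T : Finset (Fin N), tr (F d) T = 1 / (M * ∏ i ∈ S, AR_lm q Om T i) *
        ∑ x ∈ range M, (if ∀ i ∈ S, (i ∈ pat x ↔ i ∈ T) then F d x else 0) := by
      intro T
      have hper : Function.Periodic (fun x => if ∀ i ∈ S, (i ∈ pat x ↔ i ∈ T) then F d x else 0) d := by
        intro x
        have h1 := (hF d hd).1 x
        have h0 : ∀ i ∈ S, (i ∈ pat (x + d) ↔ i ∈ pat x) := by
          intro i hi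
          rw [hS, Finset.mem_filter] at hi
          exact AR_per q Om d i hi.2 x
        have h2 : (∀ i ∈ S, (i ∈ pat (x + d) ↔ i ∈ T)) ↔ (∀ i ∈ S, (i ∈ pat x ↔ i ∈ T)) := by
          constructor
          · intro h i hi; rw [← h0 i hi]; exact h i hi
          · intro h i hi; rw [h0 i hi]; exact h i hi
        simp only [h1, h2]
      have h3 := AR_ind q Om hinj hp hO1 M hM hqM T (univ \ S) d _ hper
        (hF d hd).2 (by
          intro i hi
          rw [Finset.mem_sdiff, hS, Finset.mem_filter] at hi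
          intro h
          exact hi.2 ⟨Finset.mem_univ _, h⟩)
      have h4 : ∑ x ∈ range M, (if pat x = T then F d x else 0) =
          ∑ x ∈ range M, (if ∀ i ∈ univ \ S, (i ∈ AR_hit q Om x ↔ i ∈ T) then
            (if ∀ i ∈ S, (i ∈ pat x ↔ i ∈ T) then F d x else 0) else 0) := by
        apply Finset.sum_congr rfl
        intro x _
        by_cases h : pat x = T
        · have h5 := (hpatI x T).1 h
          rw [if_pos h, if_pos (fun i _ => h5 i (Finset.mem_univ i)),
            if_pos (fun i _ => h5 i (Finset.mem_univ i))]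
        · rw [if_neg h]
          by_cases h5 : ∀ i ∈ univ \ S, (i ∈ AR_hit q Om x ↔ i ∈ T)
          · rw [if_pos h5, if_neg]
            intro h6
            apply h
            rw [hpatI]
            intro i _
            by_cases hi : i ∈ S
            · exact h6 i hi
            · exact h5 i (Finset.mem_sdiff.mpr ⟨Finset.mem_univ _, hi⟩)
          · rw [if_neg h5]
      have h5 : mu T = (∏ i ∈ univ \ S, AR_lm q Om T i) * ∏ i ∈ S, AR_lm q Om T i := by
        rw [Finset.prod_sdiff (Finset.subset_univ S)]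
        exact hmuE T
      have h6 : 0 < ∏ i ∈ S, AR_lm q Om T i := Finset.prod_pos fun i _ => AR_lm_pos q Om hO2 T i
      have h7 : 0 < ∏ i ∈ univ \ S, AR_lm q Om T i :=
        Finset.prod_pos fun i _ => AR_lm_pos q Om hO2 T i
      simp only [htr]
      rw [h4, h3, h5]
      field_simp
    intro T T' hT
    rw [key T, key T']
    have h1 : ∏ i ∈ S, AR_lm q Om T i = ∏ i ∈ S, AR_lm q Om T' i := by
      refine Finset.prod_congr rfl fun i hi => ?_
      unfold AR_lm
      by_cases h : i ∈ T
      · rw [if_pos h, if_pos ((hT i hi).1 h)]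
      · rw [if_neg h, if_neg (fun h' => h ((hT i hi).2 h'))]
    have h2 : ∀ x, (∀ i ∈ S, (i ∈ pat x ↔ i ∈ T)) ↔ (∀ i ∈ S, (i ∈ pat x ↔ i ∈ T')) := by
      intro x
      constructor
      · intro h i hi; rw [← hT i hi]; exact h i hi
      · intro h i hi; rw [hT i hi]; exact h i hi
    rw [h1]
    simp only [h2]
  have hWsum : ∀ T, tr W T = ∑ y : Fin Q, tr (F (y + 1)) T := by
    intro T
    have h1 : ∀ g : ℕ → ℝ, ∑ y : Fin Q, g (y + 1) = ∑ d ∈ Icc 1 Q, g d := by
      intro g
      rw [Fin.sum_univ_eq_sum_range (fun y => g (y + 1)) Q, Finset.range_eq_Ico,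
        Finset.sum_Ico_add' g 0 Q 1]
      apply Finset.sum_congr _ (fun _ _ => rfl)
      ext d
      simp only [Finset.mem_Ico, Finset.mem_Icc]
      omega
    rw [h1 (fun d => tr (F d) T)]
    simp only [htr]
    rw [← Finset.mul_sum, Finset.sum_comm]
    congr 1
    apply Finset.sum_congr rfl
    intro x _
    split_ifs
    · rfl
    · simp
  refine ⟨tr W, ⟨Q, fun y => univ.filter (fun i => q i ∣ (y + 1 : ℕ)), fun y => tr (F (y + 1)), ?_, ?_,
    hWsum⟩, ?_, ?_, ?_⟩
  · intro y
    exact hν (y + 1) (Finset.mem_Icc.mpr ⟨by omega, by omega⟩)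
  · intro y T T' h
    exact hlev (y + 1) (Finset.mem_Icc.mpr ⟨by omega, by omega⟩) T T' h
  · intro T b hb
    have hpos : 0 < (M : ℝ) * mu T := mul_pos hM0 (hmu0 T)
    have h1 : b * (M * mu T) ≤ ∑ x ∈ range M, (if pat x = T then W x else 0) := by
      rw [← hcnt T, Finset.mul_sum]
      refine Finset.sum_le_sum fun x _ => ?_
      split_ifs with h
      · rw [mul_one]
        exact hb x ((hpatT x T).1 h)
      · rw [mul_zero]
    show b ≤ 1 / (M * mu T) * ∑ x ∈ range M, (if pat x = T then W x else 0)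
    rw [one_div, ← div_eq_inv_mul, le_div_iff₀ hpos]
    exact h1
  · intro T b hb
    have hpos : 0 < (M : ℝ) * mu T := mul_pos hM0 (hmu0 T)
    have h1 : ∑ x ∈ range M, (if pat x = T then W x else 0) ≤ b * (M * mu T) := by
      rw [← hcnt T, Finset.mul_sum]
      refine Finset.sum_le_sum fun x _ => ?_
      split_ifs with h
      · rw [mul_one]
        exact hb x ((hpatT x T).1 h)
      · rw [mul_zero]
    show 1 / (M * mu T) * ∑ x ∈ range M, (if pat x = T then W x else 0) ≤ b
    rw [one_div, ← div_eq_inv_mul, div_le_iff₀ hpos]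
    exact h1
  · have h1 : ∀ T, mu T * tr W T = 1 / M * ∑ x ∈ range M, (if pat x = T then W x else 0) := by
      intro T
      simp only [htr]
      have := (hmu0 T).ne'
      field_simp
    simp only [h1]
    rw [← Finset.mul_sum, Finset.sum_comm, one_div, ← div_eq_inv_mul]
    congr 1
    refine Finset.sum_congr rfl fun x _ => ?_
    rw [Finset.sum_ite_eq]
    simp

end Pool.Agent.N422.SL
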