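import Pool.Agent.N422.SL.Stm

/-! Project SL (helper422), part UBM (helper7): the inequality in the model. -/

set_option autoImplicit false

open Finset

namespace Pool.Agent.N422.SL

open Pool.Agent.N422.NW

/-- the places on which the function does not depend can be forgotten -/
theorem UBM_marg_aux {N : ℕ} (a : Fin N → ℂ) (S : Finset (Fin N)) (h : Finset (Fin N) → ℝ)
    (hh : ∀ T T', (∀ i ∈ S, (i ∈ T ↔ i ∈ T')) → h T = h T') (V : Finset (Fin N)) :
    Disjoint V S →
    ∑ T ∈ (V ∪ S).powerset, (∏ i ∈ V ∪ S, (if i ∈ T then a i else 1 - a i)) * (h T : ℂ) =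
      ∑ T ∈ S.powerset, (∏ i ∈ S, (if i ∈ T then a i else 1 - a i)) * (h T : ℂ) := by
  induction V using Finset.induction_on with
  | empty =>
    intro _
    rw [empty_union]
  | insert v V hv ih =>
    intro hd
    rw [disjoint_insert_left] at hd
    have hvU : v ∉ V ∪ S := by
      rw [mem_union]
      rintro (h1 | h1)
      · exact hv h1
      · exact hd.1 h1
    rw [insert_union, sum_powerset_insert hvU, ← ih hd.2, ← sum_add_distrib]
    refine sum_congr rfl fun T hT => ?_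
    have hvT : v ∉ T := fun h1 => hvU (mem_powerset.1 hT h1)
    have e1 : h (insert v T) = h T := by
      apply hh
      intro i hi
      rw [mem_insert]
      have hiv : i ≠ v := by
        rintro rfl
        exact hd.1 hi
      simp [hiv]
    have e2 : ∏ i ∈ V ∪ S, (if i ∈ insert v T then a i else 1 - a i) =
        ∏ i ∈ V ∪ S, (if i ∈ T then a i else 1 - a i) := by
      refine prod_congr rfl fun i hi => ?_
      have hiv : i ≠ v := by
        rintro rfl
        exact hvU hi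
      simp [hiv]
    rw [prod_insert hvU, prod_insert hvU, e1, e2, if_neg hvT, if_pos (mem_insert_self v T)]
    ring

theorem UBM_marg {N : ℕ} (a : Fin N → ℂ) (S : Finset (Fin N)) (h : Finset (Fin N) → ℝ)
    (hh : ∀ T T', (∀ i ∈ S, (i ∈ T ↔ i ∈ T')) → h T = h T') :
    ∑ T, (∏ i, (if i ∈ T then a i else 1 - a i)) * (h T : ℂ) =
      ∑ T ∈ S.powerset, (∏ i ∈ S, (if i ∈ T then a i else 1 - a i)) * (h T : ℂ) := by
  have h1 := UBM_marg_aux a S h hh (univ \ S) sdiff_disjoint
  rw [sdiff_union_of_subset (subset_univ S), powerset_univ] at h1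
  exact h1

theorem UBM_xi_zero (t : ℝ) (z : ℂ) : xi t 0 z = 0 := by
  unfold xi
  simp

/-- the polynomial part -/
theorem UBM_F (hX : S_XI) {N n : ℕ} (g : Fin N → ℝ) (ν : Fin N → ℕ) (f : Finset (Fin N) → ℝ) (t : ℝ)
    (hf : LevT ν n f) (ht : 0 < t) : ∃ F : ℂ → ℂ, AnalyticOnNhd ℂ F (Metric.closedBall 0 1) ∧
      ∀ z : ℂ, z ≠ 0 → F z = z ^ n *
        ∑ T, (∏ i, (if i ∈ T then (g i : ℂ) * xi t (ν i) z else 1 - (g i : ℂ) * xi t (ν i) z)) *
          (f T : ℂ) := by
  obtain ⟨m, S, h, hS, hh, hfh⟩ := hf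
  have hA : ∀ i, ∃ A : ℂ → ℂ, AnalyticOnNhd ℂ A (Metric.closedBall 0 1) ∧
      ∀ z : ℂ, z ≠ 0 → A z = z ^ (ν i) * xi t (ν i) z := by
    intro i
    rcases Nat.eq_zero_or_pos (ν i) with h0 | h0
    · refine ⟨fun _ => 0, analyticOnNhd_const, fun z _ => ?_⟩
      rw [h0, UBM_xi_zero, mul_zero]
    · exact (hX (ν i) t h0 ht).2.2.1
  choose A hA1 hA2 using hA
  refine ⟨fun z => ∑ x, z ^ (n - ∑ i ∈ S x, ν i) * ∑ T ∈ (S x).powerset,
    (∏ i ∈ S x, (if i ∈ T then (g i : ℂ) * A i z else z ^ (ν i) - (g i : ℂ) * A i z)) *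
      (h x T : ℂ), ?_, ?_⟩
  · refine Finset.analyticOnNhd_fun_sum _ fun x _ => ?_
    refine (analyticOnNhd_id.pow _).mul ?_
    refine Finset.analyticOnNhd_fun_sum _ fun T _ => ?_
    refine AnalyticOnNhd.mul ?_ analyticOnNhd_const
    refine Finset.analyticOnNhd_fun_prod _ fun i _ => ?_
    split_ifs
    · exact analyticOnNhd_const.mul (hA1 i)
    · exact (analyticOnNhd_id.pow _).sub (analyticOnNhd_const.mul (hA1 i))
  · intro z hz
    have e1 : ∀ T, ((f T : ℝ) : ℂ) = ∑ x, (h x T : ℂ) := by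
      intro T
      rw [hfh T]
      push_cast
      rfl
    simp only [e1, mul_sum]
    rw [sum_comm]
    refine sum_congr rfl fun x _ => ?_
    have e2 := UBM_marg (fun i => (g i : ℂ) * xi t (ν i) z) (S x) (h x) (hh x)
    rw [← mul_sum, ← mul_sum, e2, mul_sum, mul_sum]
    refine sum_congr rfl fun T _ => ?_
    have e3 : ∏ i ∈ S x, (if i ∈ T then (g i : ℂ) * A i z else z ^ (ν i) - (g i : ℂ) * A i z) =
        z ^ (∑ i ∈ S x, ν i) *
        ∏ i ∈ S x, (if i ∈ T then (g i : ℂ) * xi t (ν i) z else 1 - (g i : ℂ) * xi t (ν i) z) := by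
      rw [← prod_pow_eq_pow_sum, ← prod_mul_distrib]
      refine prod_congr rfl fun i _ => ?_
      rw [hA2 i z hz]
      split_ifs <;> ring
    rw [e3, ← mul_assoc, ← mul_assoc, ← mul_assoc, ← pow_add, Nat.sub_add_cancel (hS x)]

/-- **The inequality in the model.** -/
theorem t_UBM (hJ : S_JA) (hX : S_XI) (hA : S_AV) : S_UBM := by
  intro N n g ν f t hg hg2 hf ht
  have hmu : ∀ T, 0 ≤ muT g T := by
    intro T
    unfold muT
    refine prod_nonneg fun i _ => ?_
    split_ifs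
    · exact (hg i).1
    · linarith [(hg i).2]
  have hE0 : 0 ≤ ∑ T, muT g T * |f T| :=
    sum_nonneg fun T _ => mul_nonneg (hmu T) (abs_nonneg _)
  by_cases hf0 : f ∅ = 0
  · rw [hf0, abs_zero, zero_mul, zero_mul]
    exact hE0
  by_cases hg1 : ∃ i, g i = 1
  · obtain ⟨i, hi⟩ := hg1
    have e : ∏ i, (1 - g i) = 0 := prod_eq_zero (mem_univ i) (by rw [hi, sub_self])
    rw [e, mul_zero, zero_mul]
    exact hE0
  push Not at hg1
  have hg3 : ∀ i, 0 < 1 - g i := by
    intro i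
    have h1 := lt_of_le_of_ne (hg i).2 (hg1 i)
    linarith
  obtain ⟨E, hE⟩ : ∃ E, E = ∑ T, muT g T * |f T| := ⟨_, rfl⟩
  have hEpos : 0 < E := by
    rw [hE]
    refine lt_of_lt_of_le ?_ (single_le_sum (f := fun T => muT g T * |f T|)
      (fun T _ => mul_nonneg (hmu T) (abs_nonneg _)) (mem_univ ∅))
    refine mul_pos ?_ (abs_pos.2 hf0)
    unfold muT
    refine prod_pos fun i _ => ?_
    rw [if_neg (notMem_empty i)]
    exact hg3 i
  rw [← hE]
  obtain ⟨s, hs⟩ : ∃ s, s = Real.exp (-t) := ⟨_, rfl⟩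
  have hs0 : 0 < s := by rw [hs]; exact Real.exp_pos _
  have hs1 : s < 1 := by
    rw [hs, Real.exp_lt_one_iff]
    linarith
  have hpsi : ∀ w : ℂ, ‖w‖ = 1 → ‖psi s w‖ = 1 := by
    rw [hs]
    exact (hA 0 t ht).1
  obtain ⟨F, hFan, hF⟩ := UBM_F hX g ν f t hf ht
  -- the value at `s`
  have hsC : (s : ℂ) ≠ 0 := by exact_mod_cast hs0.ne'
  have hxis : ∀ i, xi t (ν i) (s : ℂ) = 0 := by
    intro i
    rcases Nat.eq_zero_or_pos (ν i) with h0 | h0
    · rw [h0, UBM_xi_zero]
    · rw [hs]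
      exact (hX (ν i) t h0 ht).2.1
  have hFs : F s = (s : ℂ) ^ n * (f ∅ : ℂ) := by
    rw [hF s hsC]
    congr 1
    rw [sum_eq_single ∅]
    · have e : ∏ i : Fin N, (if i ∈ (∅ : Finset (Fin N)) then (g i : ℂ) * xi t (ν i) s
          else 1 - (g i : ℂ) * xi t (ν i) s) = 1 := by
        refine prod_eq_one fun i _ => ?_
        rw [if_neg (notMem_empty i), hxis i, mul_zero, sub_zero]
      rw [e, one_mul]
    · intro T _ hT
      obtain ⟨i, hi⟩ := nonempty_iff_ne_empty.2 hT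
      rw [prod_eq_zero (mem_univ i) (by rw [if_pos hi, hxis i, mul_zero]), zero_mul]
    · intro h
      exact absurd (mem_univ _) h
  -- the normalised function
  obtain ⟨G, hG⟩ : ∃ G : ℂ → ℂ, G = fun z => ((E⁻¹ : ℝ) : ℂ) * F z := ⟨_, rfl⟩
  have hGan : AnalyticOnNhd ℂ G (Metric.closedBall 0 1) := by
    rw [hG]
    exact analyticOnNhd_const.mul hFan
  have hEC : ((E⁻¹ : ℝ) : ℂ) ≠ 0 := by
    have := inv_ne_zero hEpos.ne'
    exact_mod_cast this
  have hGs : G s ≠ 0 := by
    rw [hG]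
    simp only
    rw [hFs]
    exact mul_ne_zero hEC (mul_ne_zero (pow_ne_zero _ hsC) (by exact_mod_cast hf0))
  obtain ⟨hI, hJen⟩ := hJ G s hGan hs0 hs1 hGs
  -- the local factors
  have hxi1 : ∀ i (z : ℂ), ‖z‖ = 1 → ‖xi t (ν i) z‖ ≤ 1 := by
    intro i z hz
    rcases Nat.eq_zero_or_pos (ν i) with h0 | h0
    · rw [h0, UBM_xi_zero, norm_zero]
      exact zero_le_one
    · exact ((hX (ν i) t h0 ht).1 z hz).le
  have hloc : ∀ i (z : ℂ), ‖z‖ = 1 → 1 - g i ≤ ‖1 - (g i : ℂ) * xi t (ν i) z‖ := by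
    intro i z hz
    have h1 := norm_sub_norm_le (1 : ℂ) ((g i : ℂ) * xi t (ν i) z)
    rw [norm_one, norm_mul, Complex.norm_real, Real.norm_of_nonneg (hg i).1] at h1
    have h2 := mul_le_mul_of_nonneg_left (hxi1 i z hz) (hg i).1
    linarith
  obtain ⟨c, hc⟩ : ∃ c : Fin N → ℂ → ℝ, c = fun i z => ‖1 - (g i : ℂ) * xi t (ν i) z‖ / (1 - g i) :=
    ⟨_, rfl⟩
  have hc1 : ∀ i (z : ℂ), ‖z‖ = 1 → 1 ≤ c i z := by
    intro i z hz
    rw [hc]
    simp only
    rw [le_div_iff₀ (hg3 i), one_mul]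
    exact hloc i z hz
  have hbound : ∀ z : ℂ, ‖z‖ = 1 → ‖G z‖ ≤ ∏ i, c i z := by
    intro z hz
    have hz0 : z ≠ 0 := by
      intro h0
      rw [h0, norm_zero] at hz
      exact zero_ne_one hz
    rw [hG]
    simp only
    rw [hF z hz0, norm_mul, norm_mul, norm_pow, hz, one_pow, one_mul, Complex.norm_real,
      Real.norm_of_nonneg (inv_nonneg.2 hEpos.le)]
    have h1 : ‖∑ T, (∏ i, (if i ∈ T then (g i : ℂ) * xi t (ν i) z
        else 1 - (g i : ℂ) * xi t (ν i) z)) * (f T : ℂ)‖ ≤ (∏ i, c i z) * E := by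
      rw [hE, mul_sum]
      refine (norm_sum_le _ _).trans (sum_le_sum fun T _ => ?_)
      rw [norm_mul, Complex.norm_real, Real.norm_eq_abs, ← mul_assoc]
      refine mul_le_mul_of_nonneg_right ?_ (abs_nonneg _)
      unfold muT
      rw [← prod_mul_distrib, norm_prod]
      refine prod_le_prod (fun i _ => norm_nonneg _) fun i _ => ?_
      have h2 := hc1 i z hz
      split_ifs
      · rw [norm_mul, Complex.norm_real, Real.norm_of_nonneg (hg i).1]
        calc g i * ‖xi t (ν i) z‖ ≤ g i * 1 := mul_le_mul_of_nonneg_left (hxi1 i z hz) (hg i).1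
          _ = 1 * g i := by ring
          _ ≤ c i z * g i := mul_le_mul_of_nonneg_right h2 (hg i).1
      · rw [hc]
        simp only
        rw [div_mul_cancel₀ _ (hg3 i).ne']
    calc E⁻¹ * _ ≤ E⁻¹ * ((∏ i, c i z) * E) :=
          mul_le_mul_of_nonneg_left h1 (inv_nonneg.2 hEpos.le)
      _ = ∏ i, c i z := by field_simp
  -- the pointwise inequality
  have hpt : ∀ w : ℂ, ‖w‖ = 1 → Real.log ‖G (psi s w)‖ ≤
      ∑ i, (Real.log ‖1 - (g i : ℂ) * xi t (ν i) (psi s w)‖ - Real.log (1 - g i)) := by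
    intro w hw
    have hz := hpsi w hw
    have e1 : ∑ i, (Real.log ‖1 - (g i : ℂ) * xi t (ν i) (psi s w)‖ - Real.log (1 - g i)) =
        Real.log (∏ i, c i (psi s w)) := by
      rw [Real.log_prod (fun i _ => by linarith [hc1 i _ hz])]
      refine sum_congr rfl fun i _ => ?_
      rw [hc]
      simp only
      rw [Real.log_div (by linarith [hg3 i, hloc i _ hz]) (hg3 i).ne']
    have h1 : 1 ≤ ∏ i, c i (psi s w) := Finset.one_le_prod (fun i _ => hc1 i _ hz)
    rw [e1]
    rcases (norm_nonneg (G (psi s w))).eq_or_lt with h0 | h0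
    · rw [← h0, Real.log_zero]
      exact Real.log_nonneg h1
    · exact Real.log_le_log h0 (hbound _ hz)
  -- the averages of the local factors
  obtain ⟨b, hb⟩ : ∃ b : Fin N → ℝ, b = fun i => if ν i = 0 then 0 else
    g i * (1 - Real.exp (-(2 * ν i * t))) - g i ^ 2 := ⟨_, rfl⟩
  have hav : ∀ i, CircleIntegrable (fun w => Real.log ‖1 - (g i : ℂ) * xi t (ν i) (psi s w)‖) 0 1 ∧
      Real.circleAverage (fun w => Real.log ‖1 - (g i : ℂ) * xi t (ν i) (psi s w)‖) 0 1 ≤ -b i := by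
    intro i
    rw [hb]
    simp only
    rcases Nat.eq_zero_or_pos (ν i) with h0 | h0
    · rw [if_pos h0, h0]
      simp only [UBM_xi_zero, mul_zero, sub_zero, norm_one, Real.log_one, neg_zero]
      refine ⟨circleIntegrable_const _ _ _, ?_⟩
      rw [Real.circleAverage_const]
    · obtain ⟨h1, h2⟩ := (hX (ν i) t h0 ht).2.2.2 (g i) (hg i).1 (hg2 i (by omega))
      rw [if_neg (by omega), hs]
      refine ⟨h1, h2.trans (le_of_eq ?_)⟩
      ring
  have hU : ∀ i ∈ (univ : Finset (Fin N)), CircleIntegrable (fun w =>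
      Real.log ‖1 - (g i : ℂ) * xi t (ν i) (psi s w)‖ - Real.log (1 - g i)) 0 1 := fun i _ =>
    (hav i).1.sub (circleIntegrable_const _ _ _)
  have hUs : CircleIntegrable (fun w =>
      ∑ i, (Real.log ‖1 - (g i : ℂ) * xi t (ν i) (psi s w)‖ - Real.log (1 - g i))) 0 1 := by
    have := CircleIntegrable.sum univ hU
    convert this using 1
    funext w
    rw [Finset.sum_apply]
  have hmono := Real.circleAverage_mono hI hUs (by
    intro w hw
    apply hpt w
    rw [abs_one, mem_sphere_zero_iff_norm] at hw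
    exact hw)
  rw [Real.circleAverage_fun_sum hU] at hmono
  have hsum : ∑ i, Real.circleAverage (fun w =>
      Real.log ‖1 - (g i : ℂ) * xi t (ν i) (psi s w)‖ - Real.log (1 - g i)) 0 1 ≤
      ∑ i, (-b i - Real.log (1 - g i)) := by
    refine sum_le_sum fun i _ => ?_
    have e1 := Real.circleAverage_sub (hav i).1 (circleIntegrable_const (Real.log (1 - g i)) 0 1)
    rw [Real.circleAverage_const] at e1
    refine (le_of_eq e1).trans ?_
    linarith [(hav i).2]
  have hGs' : Real.log ‖G s‖ = Real.log |f ∅| - n * t - Real.log E := by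
    rw [hG]
    simp only
    rw [hFs, norm_mul, norm_mul, norm_pow, Complex.norm_real, Complex.norm_real, Complex.norm_real,
      Real.norm_of_nonneg (inv_nonneg.2 hEpos.le), Real.norm_of_nonneg hs0.le, Real.norm_eq_abs,
      Real.log_mul (inv_ne_zero hEpos.ne') (mul_ne_zero (pow_ne_zero _ hs0.ne') (abs_ne_zero.2 hf0)),
      Real.log_mul (pow_ne_zero _ hs0.ne') (abs_ne_zero.2 hf0), Real.log_inv, Real.log_pow, hs,
      Real.log_exp]
    ring
  have hfinal : Real.log |f ∅| - n * t - Real.log E ≤ ∑ i, (-b i - Real.log (1 - g i)) := by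
    rw [← hGs']
    exact hJen.trans (hmono.trans hsum)
  rw [sum_sub_distrib, sum_neg_distrib] at hfinal
  have hprod : 0 < ∏ i, (1 - g i) := prod_pos fun i _ => hg3 i
  have hfpos : 0 < |f ∅| := abs_pos.2 hf0
  have e2 : ∑ i, (if ν i = 0 then 0 else g i * (1 - Real.exp (-(2 * ν i * t))) - g i ^ 2) =
      ∑ i, b i := by rw [hb]
  rw [e2, ← Real.log_le_log_iff (by positivity) hEpos, Real.log_mul (by positivity) (Real.exp_pos _).ne',
    Real.log_mul hfpos.ne' hprod.ne', Real.log_exp, Real.log_prod (fun i _ => (hg3 i).ne')]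
  linarith

end Pool.Agent.N422.SL
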