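import Pool.Agent.N422.SL.Stm

/-! Project SL: the main inequalities for sieve weights (SL/AB). Author: helper278. The lemmas on blocks are copied from
`Pool.Agent.N422.NW.FIN` (helper422). -/

set_option autoImplicit false

open Finset

namespace Pool.Agent.N422.SL

open Pool.Agent.N422.NW

/-- the block of a prime -/
noncomputable def AB_blk (n Q p : ℕ) : ℕ := ⌈(n : ℝ) * Real.log p / Real.log Q⌉₊ - 1

theorem AB_blk_spec {m n Q p : ℕ} (hm : 0 < m) (hQ : 0 < Real.log Q)
    (hp1 : (m : ℝ) * Real.log Q < n * Real.log p)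
    (hpQ : Real.log p ≤ Real.log Q) : m ≤ AB_blk n Q p ∧ AB_blk n Q p < n ∧
      (AB_blk n Q p : ℝ) * Real.log Q < n * Real.log p ∧
      n * Real.log p ≤ ((AB_blk n Q p : ℝ) + 1) * Real.log Q := by
  obtain ⟨y, hy⟩ : ∃ y, y = (n : ℝ) * Real.log p / Real.log Q := ⟨_, rfl⟩
  have h1 : (m : ℝ) < y := by rw [hy, lt_div_iff₀ hQ]; exact hp1
  have h2 : y ≤ n := by
    rw [hy, div_le_iff₀ hQ]
    exact mul_le_mul_of_nonneg_left hpQ (Nat.cast_nonneg n)
  have h3 : m < ⌈y⌉₊ := Nat.lt_ceil.2 h1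
  have h4 : ⌈y⌉₊ ≤ n := Nat.ceil_le.2 h2
  have h5 : AB_blk n Q p = ⌈y⌉₊ - 1 := by rw [hy]; rfl
  have h6 : (AB_blk n Q p : ℝ) + 1 = ⌈y⌉₊ := by
    have : AB_blk n Q p + 1 = ⌈y⌉₊ := by omega
    exact_mod_cast this
  have h7 : y ≤ ⌈y⌉₊ := Nat.le_ceil y
  have h8 : (⌈y⌉₊ : ℝ) < y + 1 := Nat.ceil_lt_add_one (by linarith [Nat.cast_nonneg (α := ℝ) m])
  have e1 : (n : ℝ) * Real.log p = y * Real.log Q := by
    rw [hy, div_mul_cancel₀ _ hQ.ne']
  refine ⟨by omega, by omega, ?_, ?_⟩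
  · rw [e1]
    apply mul_lt_mul_of_pos_right _ hQ
    linarith
  · rw [e1, h6]
    exact mul_le_mul_of_nonneg_right h7 hQ.le

theorem AB_blk_unique {n Q p j : ℕ} (hQ : 0 < Real.log Q) (h1 : (j : ℝ) * Real.log Q < n * Real.log p)
    (h2 : n * Real.log p ≤ ((j : ℝ) + 1) * Real.log Q) : AB_blk n Q p = j := by
  obtain ⟨y, hy⟩ : ∃ y, y = (n : ℝ) * Real.log p / Real.log Q := ⟨_, rfl⟩
  have h3 : (j : ℝ) < y := by rw [hy, lt_div_iff₀ hQ]; exact h1
  have h4 : y ≤ ((j + 1 : ℕ) : ℝ) := by rw [hy, div_le_iff₀ hQ]; push_cast; exact h2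
  have h5 : j < ⌈y⌉₊ := Nat.lt_ceil.2 h3
  have h6 : ⌈y⌉₊ ≤ j + 1 := Nat.ceil_le.2 h4
  have h7 : AB_blk n Q p = ⌈y⌉₊ - 1 := by rw [hy]; rfl
  omega

open Classical in
/-- the level of a prime -/
noncomputable def AB_nu (m n Q p : ℕ) : ℕ :=
  if (m : ℝ) * Real.log Q < n * Real.log p then AB_blk n Q p else 0

/-! ### The residue classes -/

theorem AB_mem_om {H : Finset ℕ} {p : ℕ} (hp : 0 < p) (x : ℕ) :
    x % p ∈ om H p ↔ ∃ h ∈ H, p ∣ x + h := by
  unfold om
  rw [mem_filter, mem_range]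
  have e : ∀ h, (p ∣ x % p + h ↔ p ∣ x + h) := by
    intro h
    rw [Nat.dvd_iff_mod_eq_zero, Nat.dvd_iff_mod_eq_zero, Nat.mod_add_mod]
  constructor
  · rintro ⟨-, h, hh, hd⟩
    exact ⟨h, hh, (e h).1 hd⟩
  · rintro ⟨h, hh, hd⟩
    exact ⟨Nat.mod_lt _ hp, h, hh, (e h).2 hd⟩

theorem AB_om_sub (H : Finset ℕ) (p : ℕ) : om H p ⊆ range p := filter_subset _ _

/-- the class removed by `h` -/
def AB_r (p h : ℕ) : ℕ := (p - h % p) % p

theorem AB_r_lt {p : ℕ} (hp : 0 < p) (h : ℕ) : AB_r p h < p := Nat.mod_lt _ hp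

theorem AB_r_dvd {p : ℕ} (hp : 0 < p) (h : ℕ) : p ∣ AB_r p h + h := by
  unfold AB_r
  rw [Nat.dvd_iff_mod_eq_zero, Nat.mod_add_mod, ← Nat.add_mod_mod]
  have h1 : h % p < p := Nat.mod_lt _ hp
  have h2 : p - h % p + h % p = p := by omega
  rw [h2, Nat.mod_self]

theorem AB_r_unique {p a h : ℕ} (ha : a < p) (hd : p ∣ a + h) : a = AB_r p h := by
  have hp : 0 < p := by omega
  have h1 := AB_r_dvd hp h
  have h2 := AB_r_lt hp h
  have h3 : a ≡ AB_r p h [MOD p] := by
    have h4 : a + h ≡ AB_r p h + h [MOD p] := by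
      unfold Nat.ModEq
      rw [Nat.dvd_iff_mod_eq_zero.1 hd, Nat.dvd_iff_mod_eq_zero.1 h1]
    exact Nat.ModEq.add_right_cancel' h h4
  unfold Nat.ModEq at h3
  rwa [Nat.mod_eq_of_lt ha, Nat.mod_eq_of_lt h2] at h3

theorem AB_om_image (H : Finset ℕ) {p : ℕ} (hp : 0 < p) : om H p = H.image (AB_r p) := by
  ext a
  unfold om
  rw [mem_filter, mem_range, mem_image]
  constructor
  · rintro ⟨ha, h, hh, hd⟩
    exact ⟨h, hh, (AB_r_unique ha hd).symm⟩
  · rintro ⟨h, hh, rfl⟩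
    exact ⟨AB_r_lt hp h, h, hh, AB_r_dvd hp h⟩

theorem AB_om_le (H : Finset ℕ) {p : ℕ} (hp : 0 < p) : (om H p).card ≤ H.card := by
  rw [AB_om_image H hp]
  exact card_image_le

theorem AB_om_pos {H : Finset ℕ} (hH : H.Nonempty) {p : ℕ} (hp : 0 < p) : 0 < (om H p).card := by
  rw [AB_om_image H hp, card_pos]
  exact hH.image _

theorem AB_om_eq {H : Finset ℕ} {p : ℕ} (hp : 0 < p) (h : ∀ a ∈ H, ∀ b ∈ H, a < b → ¬ p ∣ b - a) :
    (om H p).card = H.card := by
  rw [AB_om_image H hp]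
  apply card_image_of_injOn
  have key : ∀ a ∈ H, ∀ b ∈ H, AB_r p a = AB_r p b → ¬ a < b := by
    intro a ha b hb hab hlt
    apply h a ha b hb hlt
    have h1 := AB_r_dvd hp a
    have h2 := AB_r_dvd hp b
    rw [hab] at h1
    have h3 := Nat.dvd_sub h2 h1
    have e : AB_r p b + b - (AB_r p b + a) = b - a := by omega
    rwa [e] at h3
  intro a ha b hb hab
  have h1 := key a ha b hb hab
  have h2 := key b hb a ha hab.symm
  omega

/-- the primes dividing a number -/
theorem AB_lg {s : Finset ℕ} {D : ℕ} (hD : 0 < D) (hs : ∀ p ∈ s, p.Prime ∧ p ∣ D) :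
    ∑ p ∈ s, Real.log p ≤ Real.log D := by
  have h1 : ∏ p ∈ s, p ∣ D := Finset.prod_primes_dvd D (fun p hp => (hs p hp).1.prime) (fun p hp => (hs p hp).2)
  have h2 : ∏ p ∈ s, p ≤ D := Nat.le_of_dvd hD h1
  have h3 : 0 < ∏ p ∈ s, p := prod_pos fun p hp => (hs p hp).1.pos
  rw [← Real.log_prod (fun p hp => by
    have := (hs p hp).1.pos
    exact_mod_cast this.ne')]
  have e : ∏ p ∈ s, (p : ℝ) = ((∏ p ∈ s, p : ℕ) : ℝ) := by push_cast; rfl
  rw [e]
  apply Real.log_le_log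
  · exact_mod_cast h3
  · exact_mod_cast h2

/-! ### The mean value -/

theorem AB_sum_mod (d e : ℕ) (f : ℕ → ℝ) : ∑ x ∈ range (d * e), f (x % d) = e * ∑ a ∈ range d, f a := by
  induction e with
  | zero => simp
  | succ e ih =>
    rw [Nat.mul_succ, sum_range_add, ih]
    have : ∑ x ∈ range d, f ((d * e + x) % d) = ∑ a ∈ range d, f a := by
      apply sum_congr rfl
      intro a ha
      rw [Nat.mul_add_mod, Nat.mod_eq_of_lt (mem_range.1 ha)]
    rw [this]
    push_cast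
    ring

theorem AB_mean (Q : ℕ) (c : ℕ → ℕ → ℝ) :
    (∑ x ∈ range Q.factorial, ∑ d ∈ Icc 1 Q, c d (x % d)) / Q.factorial = mn Q c := by
  have hM : (0 : ℝ) < Q.factorial := by exact_mod_cast Nat.factorial_pos Q
  unfold mn
  rw [sum_comm, div_eq_iff hM.ne', sum_mul]
  apply sum_congr rfl
  intro d hd
  rw [mem_Icc] at hd
  obtain ⟨e, he⟩ : d ∣ Q.factorial := Nat.dvd_factorial (by omega) hd.2
  have hd0 : (0 : ℝ) < d := by exact_mod_cast hd.1
  rw [he, AB_sum_mod]
  push_cast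
  field_simp

/-! ### The main estimate -/

theorem AB_est (h3 : S_RS) (h4 : S_MER) (k : ℕ) (θ τ ε B : ℝ) (hk : 1 ≤ k) (hθ : 0 < θ) (hθ1 : θ ≤ 1)
    (hτ : 0 < τ) (hε : 0 < ε) : ∃ (m n Q0 : ℕ), 0 < m ∧ m ≤ n ∧ ∀ Q : ℕ, Q0 ≤ Q → 0 < Real.log Q ∧
    ∀ H : Finset ℕ, H.card = k → (∀ h ∈ H, (h : ℝ) ≤ (Q : ℝ) ^ B) →
    (∀ p ∈ PY Q θ, AB_nu m n Q p ≠ 0 → ((om H p).card : ℝ) / p ≤ 1 / 2) ∧
    (k : ℝ) * Ein (2 * τ * θ) - ε ≤ ∑ p ∈ PY Q θ, (if AB_nu m n Q p = 0 then 0 else
      ((om H p).card : ℝ) / p * (1 - Real.exp (-(2 * (AB_nu m n Q p) * (τ / n)))) -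
        (((om H p).card : ℝ) / p) ^ 2) := by
  classical
  have hkr : (1 : ℝ) ≤ k := by exact_mod_cast hk
  have hk0 : (0 : ℝ) < k := by linarith
  obtain ⟨m, n, η, hm, hmn, hη, hRS⟩ := h3 θ τ (ε / (2 * k)) hθ hθ1 hτ (by positivity)
  obtain ⟨Q1, hQ1⟩ := h4 m n ((k : ℝ) ^ 2 * max B 0) η hm hmn hη
  obtain ⟨Y0, hY0⟩ := exists_nat_ge (max (2 * (k : ℝ)) (4 * (k : ℝ) ^ 2 / ε))
  have hY1 : 2 * (k : ℝ) ≤ Y0 := (le_max_left _ _).trans hY0
  have hY2 : 4 * (k : ℝ) ^ 2 / ε ≤ Y0 := (le_max_right _ _).trans hY0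
  have hY3 : (0 : ℝ) < Y0 := by linarith
  have hn0 : 0 < n := by omega
  have hnr : (0 : ℝ) < n := by exact_mod_cast hn0
  obtain ⟨Q2, hQ2⟩ := (Filter.tendsto_atTop.1 (Real.tendsto_log_atTop.comp tendsto_natCast_atTop_atTop)
    ((n : ℝ) * Real.log Y0 + 1)).exists_forall_of_atTop
  refine ⟨m, n, max Q1 (max Q2 1), hm, hmn, ?_⟩
  intro Q hQ
  have hQa : Q1 ≤ Q := (le_max_left _ _).trans hQ
  have hQb : Q2 ≤ Q := (le_max_left _ _).trans ((le_max_right _ _).trans hQ)
  have hQc : 1 ≤ Q := (le_max_right _ _).trans ((le_max_right _ _).trans hQ)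
  have hlogY : 0 ≤ Real.log (Y0 : ℝ) := Real.log_natCast_nonneg Y0
  have hlogQ : (n : ℝ) * Real.log Y0 + 1 ≤ Real.log Q := hQ2 Q hQb
  have hlogQ0 : 0 < Real.log Q := by
    have : 0 ≤ (n : ℝ) * Real.log Y0 := by positivity
    linarith
  have hQr : (0 : ℝ) < Q := by exact_mod_cast hQc
  refine ⟨hlogQ0, ?_⟩
  intro H hH hHB
  have hPY : ∀ p ∈ PY Q θ, p.Prime ∧ 1 ≤ p ∧ p ≤ Q ∧ (p : ℝ) ≤ (Q : ℝ) ^ θ := by
    intro p hp
    unfold PY at hp
    rw [mem_filter, mem_Icc] at hp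
    exact ⟨hp.2.1, hp.1.1, hp.1.2, hp.2.2⟩
  -- large primes
  have hbig : ∀ p : ℕ, 0 < p → (m : ℝ) * Real.log Q < n * Real.log p → Y0 < p := by
    intro p hp0 h
    have hmr : (1 : ℝ) ≤ m := by exact_mod_cast hm
    have h1 : (n : ℝ) * Real.log Y0 < n * Real.log p := by nlinarith
    have h2 : Real.log Y0 < Real.log p := lt_of_mul_lt_mul_left h1 hnr.le
    have h5 := (Real.log_lt_log_iff hY3 (by exact_mod_cast hp0)).1 h2
    exact_mod_cast h5
  obtain ⟨P, hP⟩ : ∃ P : Finset ℕ, P = (PY Q θ).filter (fun p : ℕ => (m : ℝ) * Real.log Q < n * Real.log p) :=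
    ⟨_, rfl⟩
  have hP' : ∀ p ∈ P, p ∈ PY Q θ ∧ (m : ℝ) * Real.log Q < n * Real.log p := fun p hp => by
    rw [hP, mem_filter] at hp
    exact hp
  have hnuP : ∀ p ∈ P, AB_nu m n Q p = AB_blk n Q p := fun p hp => by
    unfold AB_nu
    rw [if_pos (hP' p hp).2]
  have hlogp : ∀ p ∈ P, Real.log p ≤ Real.log Q := fun p hp => by
    have h := hPY p (hP' p hp).1
    exact Real.log_le_log (by exact_mod_cast h.2.1) (by exact_mod_cast h.2.2.1)
  have hspec : ∀ p ∈ P, _ := fun p hp => AB_blk_spec (m := m) (n := n) (Q := Q) (p := p) hm hlogQ0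
    (hP' p hp).2 (hlogp p hp)
  have hnu0 : ∀ p ∈ P, AB_nu m n Q p ≠ 0 := fun p hp => by
    rw [hnuP p hp]
    have := (hspec p hp).1
    omega
  have hnuN : ∀ p ∈ PY Q θ, p ∉ P → AB_nu m n Q p = 0 := fun p hp hpP => by
    unfold AB_nu
    rw [if_neg]
    intro h
    exact hpP (by rw [hP, mem_filter]; exact ⟨hp, h⟩)
  have hgle : ∀ p ∈ P, 0 ≤ ((om H p).card : ℝ) / p ∧ ((om H p).card : ℝ) / p ≤ k / p := fun p hp => by
    have h := hPY p (hP' p hp).1
    have h5 : (0 : ℝ) < p := by exact_mod_cast h.2.1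
    refine ⟨by positivity, ?_⟩
    apply div_le_div_of_nonneg_right _ h5.le
    have h6 := AB_om_le H (p := p) h.2.1
    rw [hH] at h6
    exact_mod_cast h6
  have hpY : ∀ p ∈ P, (Y0 : ℝ) < p := fun p hp => by
    have := hbig p (hPY p (hP' p hp).1).2.1 (hP' p hp).2
    exact_mod_cast this
  refine ⟨?_, ?_⟩
  · intro p hp hnu
    have hpP : p ∈ P := by
      by_contra hcon
      exact hnu (hnuN p hp hcon)
    refine (hgle p hpP).2.trans ?_
    have h5 := hpY p hpP
    rw [div_le_div_iff₀ (by linarith) (by norm_num)]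
    linarith
  · -- the primes dividing a difference
    obtain ⟨D, hD⟩ : ∃ D, D = ∏ z ∈ (H ×ˢ H).filter (fun z => z.1 < z.2), (z.2 - z.1) := ⟨_, rfl⟩
    have hD0 : 0 < D := by
      rw [hD]
      refine prod_pos fun z hz => ?_
      rw [mem_filter] at hz
      omega
    have hlD : Real.log D ≤ (k : ℝ) ^ 2 * max B 0 * Real.log Q := by
      rw [hD]
      push_cast
      rw [Real.log_prod (by
        intro z hz
        rw [mem_filter] at hz
        have : 0 < z.2 - z.1 := by omega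
        exact_mod_cast this.ne')]
      have hmB : 0 ≤ max B 0 * Real.log Q := mul_nonneg (le_max_right _ _) hlogQ0.le
      have h1 : ∀ z ∈ (H ×ˢ H).filter (fun z => z.1 < z.2),
          Real.log ((z.2 - z.1 : ℕ) : ℝ) ≤ max B 0 * Real.log Q := by
        intro z hz
        rw [mem_filter, mem_product] at hz
        have h2 := hHB z.2 hz.1.2
        have h5 : ((z.2 - z.1 : ℕ) : ℝ) ≤ (Q : ℝ) ^ B := by
          have : ((z.2 - z.1 : ℕ) : ℝ) ≤ z.2 := by exact_mod_cast Nat.sub_le _ _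
          linarith
        have h6 : Real.log ((z.2 - z.1 : ℕ) : ℝ) ≤ B * Real.log Q := by
          rw [← Real.log_rpow hQr]
          apply Real.log_le_log _ h5
          exact_mod_cast (by omega : 0 < z.2 - z.1)
        exact h6.trans (mul_le_mul_of_nonneg_right (le_max_left _ _) hlogQ0.le)
      refine (sum_le_sum h1).trans ?_
      rw [sum_const, nsmul_eq_mul, mul_assoc]
      apply mul_le_mul_of_nonneg_right _ hmB
      have h2 : ((H ×ˢ H).filter (fun z => z.1 < z.2)).card ≤ k ^ 2 := by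
        refine (card_filter_le _ _).trans ?_
        rw [card_product, hH, sq]
      exact_mod_cast h2
    obtain ⟨Bd, hBd⟩ : ∃ Bd : Finset ℕ, Bd = ((Icc 1 Q).filter Nat.Prime).filter (fun p => p ∣ D) := ⟨_, rfl⟩
    have hBdp : ∀ p ∈ Bd, p.Prime ∧ p ∣ D := fun p hp => by
      rw [hBd, mem_filter, mem_filter] at hp
      exact ⟨hp.1.2, hp.2⟩
    have hmer := hQ1 Q hQa Bd (fun p hp => (hBdp p hp).1) ((AB_lg hD0 hBdp).trans hlD)
    have hcardk : ∀ p ∈ PY Q θ, p ∉ Bd → (om H p).card = k := by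
      intro p hp hpB
      have h := hPY p hp
      rw [← hH]
      apply AB_om_eq h.2.1
      intro a ha b hb hab hdvd
      apply hpB
      rw [hBd, mem_filter, mem_filter, mem_Icc]
      refine ⟨⟨⟨h.2.1, h.2.2.1⟩, h.1⟩, hdvd.trans ?_⟩
      rw [hD]
      exact dvd_prod_of_mem (fun z : ℕ × ℕ => z.2 - z.1)
        (mem_filter.2 ⟨mem_product.2 ⟨ha, hb⟩, hab⟩ : (a, b) ∈ _)
    -- the blocks
    obtain ⟨g, hg⟩ : ∃ g : ℕ → ℝ, g = fun p => ((om H p).card : ℝ) / p := ⟨_, rfl⟩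
    obtain ⟨hh, hhd⟩ : ∃ hh : ℕ → ℝ, hh = fun j : ℕ => if (j : ℝ) + 1 ≤ θ * n then
      (1 / k) * ∑ p ∈ P.filter (fun p => AB_blk n Q p = j), g p else Real.log (((j : ℝ) + 1) / j) := ⟨_, rfl⟩
    have hrs := hRS hh (fun j hj1 hj2 => by
      rw [hhd]
      dsimp only
      split_ifs with hj
      · refine (hmer j hj1 hj2).trans ?_
        rw [mul_sum]
        have hsub : ∀ p ∈ ((Icc 1 Q).filter Nat.Prime).filter (fun p => p ∉ Bd ∧
            (j : ℝ) * Real.log Q < n * Real.log p ∧ n * Real.log p ≤ ((j : ℝ) + 1) * Real.log Q),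
            p ∈ P.filter (fun p => AB_blk n Q p = j) ∧ 1 / (p : ℝ) = 1 / k * g p := by
          intro p hp
          simp only [mem_filter, mem_Icc] at hp
          obtain ⟨⟨⟨h1, h2⟩, h5⟩, h6, h7, h8⟩ := hp
          have hp0 : (0 : ℝ) < p := by exact_mod_cast h1
          have hmj : (m : ℝ) ≤ j := by exact_mod_cast hj1
          have h9 : p ∈ PY Q θ := by
            unfold PY
            rw [mem_filter, mem_Icc]
            refine ⟨⟨h1, h2⟩, h5, ?_⟩
            rw [← Real.log_le_log_iff hp0 (Real.rpow_pos_of_pos hQr _), Real.log_rpow hQr]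
            have h10 : ((j : ℝ) + 1) * Real.log Q ≤ θ * n * Real.log Q :=
              mul_le_mul_of_nonneg_right hj hlogQ0.le
            have h11 : (n : ℝ) * Real.log p ≤ n * (θ * Real.log Q) := by
              calc (n : ℝ) * Real.log p ≤ θ * n * Real.log Q := h8.trans h10
                _ = n * (θ * Real.log Q) := by ring
            exact le_of_mul_le_mul_left h11 hnr
          refine ⟨?_, ?_⟩
          · rw [mem_filter, hP, mem_filter]
            exact ⟨⟨h9, by nlinarith⟩, AB_blk_unique hlogQ0 h7 h8⟩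
          · rw [hg]
            dsimp only
            rw [hcardk p h9 h6]
            field_simp
        refine le_trans (le_of_eq (sum_congr rfl (fun p hp => (hsub p hp).2))) ?_
        apply sum_le_sum_of_subset_of_nonneg
        · intro p hp
          exact (hsub p hp).1
        · intro p hp _
          rw [hg]
          positivity
      · linarith)
    -- comparison
    have hE : ∀ j : ℕ, 0 ≤ 1 - Real.exp (-(2 * (j : ℝ) * (τ / n))) := by
      intro j
      have : Real.exp (-(2 * (j : ℝ) * (τ / n))) ≤ 1 := by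
        rw [Real.exp_le_one_iff]
        have : 0 ≤ 2 * (j : ℝ) * (τ / n) := by positivity
        linarith
      linarith
    have hg0 : ∀ p, 0 ≤ g p := fun p => by
      rw [hg]
      positivity
    have hS : ∑ p ∈ PY Q θ, (if AB_nu m n Q p = 0 then 0 else
        ((om H p).card : ℝ) / p * (1 - Real.exp (-(2 * (AB_nu m n Q p) * (τ / n)))) -
        (((om H p).card : ℝ) / p) ^ 2) =
        ∑ p ∈ P, g p * (1 - Real.exp (-(2 * (AB_blk n Q p : ℝ) * (τ / n)))) - ∑ p ∈ P, g p ^ 2 := by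
      rw [← sum_sub_distrib, hP, sum_filter]
      apply sum_congr rfl
      intro p hp
      by_cases hc : (m : ℝ) * Real.log Q < n * Real.log p
      · have hpP : p ∈ P := by rw [hP, mem_filter]; exact ⟨hp, hc⟩
        rw [if_pos hc, if_neg (hnu0 p hpP), hnuP p hpP, hg]
      · have hpP : p ∉ P := fun h => hc (hP' p h).2
        rw [if_neg hc, if_pos (hnuN p hp hpP)]
    rw [hS]
    obtain ⟨J, hJ⟩ : ∃ J, J = (Ico m n).filter (fun j : ℕ => (j : ℝ) + 1 ≤ θ * n) := ⟨_, rfl⟩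
    rw [← hJ] at hrs
    have hlow : (k : ℝ) * ∑ j ∈ J, hh j * (1 - Real.exp (-(2 * (j : ℝ) * (τ / n)))) ≤
        ∑ p ∈ P, g p * (1 - Real.exp (-(2 * (AB_blk n Q p : ℝ) * (τ / n)))) := by
      have e1 : (k : ℝ) * ∑ j ∈ J, hh j * (1 - Real.exp (-(2 * (j : ℝ) * (τ / n)))) =
          ∑ j ∈ J, ∑ p ∈ (P.filter (fun p => AB_blk n Q p ∈ J)).filter (fun p => AB_blk n Q p = j),
            g p * (1 - Real.exp (-(2 * (AB_blk n Q p : ℝ) * (τ / n)))) := by
        rw [mul_sum]
        apply sum_congr rfl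
        intro j hj
        have hj2 : (j : ℝ) + 1 ≤ θ * n := by
          rw [hJ, mem_filter] at hj
          exact hj.2
        have e2 : (P.filter (fun p => AB_blk n Q p ∈ J)).filter (fun p => AB_blk n Q p = j) =
            P.filter (fun p => AB_blk n Q p = j) := by
          ext p
          simp only [mem_filter]
          constructor
          · rintro ⟨⟨h1, -⟩, h2⟩
            exact ⟨h1, h2⟩
          · rintro ⟨h1, h2⟩
            exact ⟨⟨h1, by rw [h2]; exact hj⟩, h2⟩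
        have e3 : hh j = (1 / k) * ∑ p ∈ P.filter (fun p => AB_blk n Q p = j), g p := by
          rw [hhd]
          dsimp only
          rw [if_pos hj2]
        rw [e2, e3, ← mul_assoc, ← mul_assoc, mul_one_div_cancel hk0.ne', one_mul, sum_mul]
        apply sum_congr rfl
        intro p hp
        rw [(mem_filter.1 hp).2]
      rw [e1, sum_fiberwise_of_maps_to (fun p hp => (mem_filter.1 hp).2)]
      apply sum_le_sum_of_subset_of_nonneg (filter_subset _ _)
      intro p _ _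
      exact mul_nonneg (hg0 p) (hE _)
    have hsq : ∑ p ∈ P, g p ^ 2 ≤ ε / 2 := by
      have h5 : ∀ p ∈ P, g p ^ 2 ≤ (k : ℝ) ^ 2 * ((p : ℝ) ^ 2)⁻¹ := by
        intro p hp
        have h6 := hgle p hp
        have h7 : g p ≤ k / p := by
          rw [hg]
          exact h6.2
        calc g p ^ 2 ≤ ((k : ℝ) / p) ^ 2 := pow_le_pow_left₀ (hg0 p) h7 2
          _ = (k : ℝ) ^ 2 * ((p : ℝ) ^ 2)⁻¹ := by rw [div_pow, div_eq_mul_inv]
      refine (sum_le_sum h5).trans ?_
      rw [← mul_sum]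
      have h8 : ∑ p ∈ P, ((p : ℝ) ^ 2)⁻¹ ≤ ∑ p ∈ Ioo Y0 (Q + 1), ((p : ℝ) ^ 2)⁻¹ := by
        apply sum_le_sum_of_subset_of_nonneg
        · intro p hp
          rw [mem_Ioo]
          have h9 := hPY p (hP' p hp).1
          have h10 := hpY p hp
          exact ⟨by exact_mod_cast h10, by omega⟩
        · intro p _ _
          positivity
      have h9 := sum_Ioo_inv_sq_le (α := ℝ) Y0 (Q + 1)
      have h10 : (k : ℝ) ^ 2 * (2 / ((Y0 : ℝ) + 1)) ≤ ε / 2 := by
        rw [div_le_iff₀ hε] at hY2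
        rw [mul_div_assoc', div_le_div_iff₀ (by linarith) (by norm_num)]
        nlinarith
      calc (k : ℝ) ^ 2 * ∑ p ∈ P, ((p : ℝ) ^ 2)⁻¹ ≤ (k : ℝ) ^ 2 * (2 / ((Y0 : ℝ) + 1)) :=
            mul_le_mul_of_nonneg_left (h8.trans h9) (by positivity)
        _ ≤ ε / 2 := h10
    have h11 : (k : ℝ) * (Ein (2 * τ * θ) - ε / (2 * k)) ≤
        k * ∑ j ∈ J, hh j * (1 - Real.exp (-(2 * (j : ℝ) * (τ / n)))) :=
      mul_le_mul_of_nonneg_left hrs hk0.le
    have h12 : (k : ℝ) * (Ein (2 * τ * θ) - ε / (2 * k)) = k * Ein (2 * τ * θ) - ε / 2 := by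
      field_simp
    linarith

/-- the main inequalities -/
theorem t_AB (h1 : S_UBM) (h2 : S_AR2) (h3 : S_RS) (h4 : S_MER) : S_AB := by
  classical
  intro k θ τ ε B hk hθ hθ1 hτ hε
  obtain ⟨m, n, Q0, hm, hmn, hest⟩ := AB_est h3 h4 k θ τ ε B hk hθ hθ1 hτ hε
  refine ⟨Q0, ?_⟩
  intro Q hQ H hH hHB c
  obtain ⟨hlQ0, hest⟩ := hest Q hQ
  obtain ⟨hhalf, hE⟩ := hest H hH hHB
  have hn0 : 0 < n := by omega
  have hnr : (0 : ℝ) < n := by exact_mod_cast hn0
  have hHne : H.Nonempty := by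
    rw [← card_pos]
    omega
  have hPY : ∀ p ∈ PY Q θ, p.Prime ∧ 1 ≤ p ∧ p ≤ Q ∧ (p : ℝ) ≤ (Q : ℝ) ^ θ := by
    intro p hp
    unfold PY at hp
    rw [mem_filter, mem_Icc] at hp
    exact ⟨hp.2.1, hp.1.1, hp.1.2, hp.2.2⟩
  have hmean := AB_mean Q c
  have hM0 : 0 < Q.factorial := Nat.factorial_pos Q
  have hMr : (0 : ℝ) < Q.factorial := by exact_mod_cast hM0
  by_cases hfull : ∃ p ∈ PY Q θ, (om H p).card = p
  · -- all classes are removed
    obtain ⟨p, hp, hcard⟩ := hfull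
    have hpp := hPY p hp
    have homr : om H p = range p :=
      eq_of_subset_of_card_le (AB_om_sub H p) (by rw [card_range, hcard])
    have hhit : ∀ x : ℕ, ∃ h ∈ H, p ∣ x + h := by
      intro x
      rw [← AB_mem_om hpp.2.1 x, homr, mem_range]
      exact Nat.mod_lt _ hpp.2.1
    refine ⟨?_, ?_⟩
    · intro hw _
      have h5 : ∏ p ∈ PY Q θ, (1 - ((om H p).card : ℝ) / p) = 0 := by
        apply prod_eq_zero hp
        have hp0 : (p : ℝ) ≠ 0 := by
          have := hpp.2.1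
          positivity
        rw [hcard, div_self hp0, sub_self]
      rw [h5, mul_zero, ← hmean]
      exact div_nonneg (sum_nonneg fun x _ => hw x) hMr.le
    · intro _ hw
      rw [← hmean]
      apply div_nonpos_of_nonpos_of_nonneg _ hMr.le
      apply sum_nonpos
      intro x _
      exact hw x ⟨p, hp, hhit x⟩
  · push Not at hfull
    -- the places
    obtain ⟨q, hq⟩ : ∃ q : Fin (PY Q θ).card → ℕ, q = (PY Q θ).orderEmbOfFin rfl := ⟨_, rfl⟩
    have hqmem : ∀ i, q i ∈ PY Q θ := fun i => by rw [hq]; exact (PY Q θ).orderEmbOfFin_mem rfl i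
    have hqmono : StrictMono q := by rw [hq]; exact ((PY Q θ).orderEmbOfFin rfl).strictMono
    have himg : PY Q θ = univ.image q := by
      rw [hq]
      exact (Finset.image_orderEmbOfFin_univ (PY Q θ) rfl).symm
    have hqsum : ∀ (G : ℕ → ℝ), ∑ i, G (q i) = ∑ p ∈ PY Q θ, G p := by
      intro G
      conv_rhs => rw [himg]
      rw [sum_image (fun a _ b _ hab => hqmono.injective hab)]
    have hqprod : ∀ (G : ℕ → ℝ), ∏ i, G (q i) = ∏ p ∈ PY Q θ, G p := by
      intro G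
      conv_rhs => rw [himg]
      rw [prod_image (fun a _ b _ hab => hqmono.injective hab)]
    have hqsurj : ∀ p ∈ PY Q θ, ∃ i, q i = p := by
      intro p hp
      rw [himg, mem_image] at hp
      obtain ⟨i, -, hi⟩ := hp
      exact ⟨i, hi⟩
    have hOm : ∀ i, om H (q i) ⊆ range (q i) ∧ 0 < (om H (q i)).card ∧ (om H (q i)).card < q i := by
      intro i
      have hpp := hPY _ (hqmem i)
      refine ⟨AB_om_sub H _, AB_om_pos hHne hpp.2.1, ?_⟩
      have h5 := card_le_card (AB_om_sub H (q i))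
      rw [card_range] at h5
      have h6 := hfull _ (hqmem i)
      omega
    obtain ⟨f, hf1, hf2, hf3, hf4⟩ := h2 (PY Q θ).card q (fun i => om H (q i)) (fun i => AB_nu m n Q (q i)) n Q
      Q.factorial (fun d x => c d (x % d)) hqmono.injective (fun i => (hPY _ (hqmem i)).1) hOm hM0
      (fun i => Nat.dvd_factorial (hPY _ (hqmem i)).2.1 (hPY _ (hqmem i)).2.2.1)
      (fun d hd => ⟨fun x => by simp only [Nat.add_mod_right], by
        rw [mem_Icc] at hd
        exact Nat.dvd_factorial (by omega) hd.2⟩)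
      (fun d hd => by
        rw [mem_Icc] at hd
        obtain ⟨T, hT⟩ : ∃ T : Finset (Fin (PY Q θ).card), T = univ.filter (fun i => q i ∣ d) := ⟨_, rfl⟩
        rw [← hT]
        have h5 : ∑ i ∈ T, Real.log (q i) ≤ Real.log d := by
          have h6 : ∑ i ∈ T, Real.log (q i) = ∑ p ∈ T.image q, Real.log p := by
            rw [sum_image (fun a _ b _ hab => hqmono.injective hab)]
          rw [h6]
          refine AB_lg (by omega) ?_
          intro p hp
          rw [mem_image] at hp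
          obtain ⟨i, hi, rfl⟩ := hp
          rw [hT, mem_filter] at hi
          exact ⟨(hPY _ (hqmem i)).1, hi.2⟩
        have h7 : Real.log d ≤ Real.log Q :=
          Real.log_le_log (by exact_mod_cast hd.1) (by exact_mod_cast hd.2)
        have h8 : ∀ i, (AB_nu m n Q (q i) : ℝ) * Real.log Q ≤ n * Real.log (q i) := by
          intro i
          have hpp := hPY _ (hqmem i)
          unfold AB_nu
          split_ifs with hc
          · exact (AB_blk_spec (m := m) hm hlQ0 hc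
              (Real.log_le_log (by exact_mod_cast hpp.2.1) (by exact_mod_cast hpp.2.2.1))).2.2.1.le
          · have : 0 ≤ (n : ℝ) * Real.log (q i) := mul_nonneg hnr.le (Real.log_natCast_nonneg _)
            simpa using this
        have h9 : (∑ i ∈ T, (AB_nu m n Q (q i) : ℝ)) * Real.log Q ≤ n * Real.log Q := by
          rw [sum_mul]
          refine (sum_le_sum fun i _ => h8 i).trans ?_
          rw [← mul_sum]
          exact mul_le_mul_of_nonneg_left (h5.trans h7) hnr.le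
        have h10 := le_of_mul_le_mul_right h9 hlQ0
        exact_mod_cast h10)
    rw [hmean] at hf4
    obtain ⟨g, hg⟩ : ∃ g : Fin (PY Q θ).card → ℝ, g = fun i => ((om H (q i)).card : ℝ) / q i := ⟨_, rfl⟩
    have hqr : ∀ i, (0 : ℝ) < q i := fun i => by exact_mod_cast (hPY _ (hqmem i)).2.1
    have hg01 : ∀ i, 0 ≤ g i ∧ g i < 1 := by
      intro i
      rw [hg]
      refine ⟨div_nonneg (Nat.cast_nonneg _) (Nat.cast_nonneg _), ?_⟩
      show ((om H (q i)).card : ℝ) / q i < 1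
      rw [div_lt_one (hqr i)]
      exact_mod_cast (hOm i).2.2
    have hub := h1 (PY Q θ).card n g (fun i => AB_nu m n Q (q i)) f (τ / n) (fun i => ⟨(hg01 i).1, (hg01 i).2.le⟩)
      (fun i hi => by
        rw [hg]
        exact hhalf _ (hqmem i) hi) hf1 (by positivity)
    have hV : ∏ i, (1 - g i) = ∏ p ∈ PY Q θ, (1 - ((om H p).card : ℝ) / p) := by
      rw [← hqprod (fun p => 1 - ((om H p).card : ℝ) / p), hg]
    have hV0 : 0 < ∏ i, (1 - g i) := prod_pos fun i _ => by linarith [(hg01 i).2]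
    have hS : ∑ i, (if AB_nu m n Q (q i) = 0 then 0 else
        g i * (1 - Real.exp (-(2 * (AB_nu m n Q (q i)) * (τ / n)))) - g i ^ 2) =
        ∑ p ∈ PY Q θ, (if AB_nu m n Q p = 0 then 0 else
      ((om H p).card : ℝ) / p * (1 - Real.exp (-(2 * (AB_nu m n Q p) * (τ / n)))) -
        (((om H p).card : ℝ) / p) ^ 2) := by
      rw [← hqsum (fun p => if AB_nu m n Q p = 0 then 0 else
      ((om H p).card : ℝ) / p * (1 - Real.exp (-(2 * (AB_nu m n Q p) * (τ / n)))) -
        (((om H p).card : ℝ) / p) ^ 2), hg]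
    obtain ⟨E, hEd⟩ : ∃ E : ℝ, E = ∑ i, (if AB_nu m n Q (q i) = 0 then 0 else
        g i * (1 - Real.exp (-(2 * (AB_nu m n Q (q i)) * (τ / n)))) - g i ^ 2) - n * (τ / n) := ⟨_, rfl⟩
    have hEge : (k : ℝ) * Ein (2 * τ * θ) - τ - ε ≤ E := by
      rw [hEd, hS, mul_div_cancel₀ _ hnr.ne']
      linarith
    rw [← hEd] at hub
    have hmu0 : ∀ T, 0 ≤ muT g T := by
      intro T
      unfold muT
      apply prod_nonneg
      intro i _
      split_ifs
      · exact (hg01 i).1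
      · linarith [(hg01 i).2]
    have hf4' : ∑ T, muT g T * f T = mn Q c := by
      rw [hg]
      exact hf4
    refine ⟨?_, ?_⟩
    · intro hw hw1
      have hfT : ∀ T, 0 ≤ f T := fun T => hf2 T 0 (fun x _ => hw x)
      have hfe : 1 ≤ f ∅ := by
        apply hf2 ∅ 1
        intro x hx
        apply hw1 x
        intro p hp h hh hd
        obtain ⟨i, rfl⟩ := hqsurj p hp
        have h5 := (hx i).2 ((AB_mem_om (hPY _ hp).2.1 x).2 ⟨h, hh, hd⟩)
        exact absurd h5 (Finset.notMem_empty _)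
      have h6 : ∑ T, muT g T * |f T| = mn Q c := by
        rw [← hf4']
        apply sum_congr rfl
        intro T _
        rw [abs_of_nonneg (hfT T)]
      rw [h6, abs_of_nonneg (hfT ∅)] at hub
      rw [← hV]
      refine le_trans ?_ hub
      calc Real.exp (k * Ein (2 * τ * θ) - τ - ε) * ∏ i, (1 - g i)
          ≤ Real.exp E * ∏ i, (1 - g i) :=
            mul_le_mul_of_nonneg_right (Real.exp_le_exp.2 hEge) hV0.le
        _ = 1 * (∏ i, (1 - g i)) * Real.exp E := by ring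
        _ ≤ f ∅ * (∏ i, (1 - g i)) * Real.exp E := by
            apply mul_le_mul_of_nonneg_right _ (Real.exp_pos _).le
            exact mul_le_mul_of_nonneg_right hfe hV0.le
    · intro hlog hw
      by_contra hpos
      push Not at hpos
      have hfT : ∀ T : Finset (Fin (PY Q θ).card), T ≠ ∅ → f T ≤ 0 := by
        intro T hT
        obtain ⟨i, hi⟩ := nonempty_iff_ne_empty.2 hT
        apply hf3 T 0
        intro x hx
        apply hw x
        have h5 := (AB_mem_om (hPY _ (hqmem i)).2.1 x).1 ((hx i).1 hi)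
        exact ⟨q i, hqmem i, h5⟩
      have hmue : muT g ∅ = ∏ i, (1 - g i) := by
        unfold muT
        simp
      have e1 : muT g ∅ * f ∅ + ∑ T ∈ univ.erase ∅, muT g T * f T = mn Q c := by
        rw [← hf4']
        exact add_sum_erase univ (fun T => muT g T * f T) (mem_univ ∅)
      have e2 : muT g ∅ * |f ∅| + ∑ T ∈ univ.erase ∅, muT g T * |f T| = ∑ T, muT g T * |f T| :=
        add_sum_erase univ (fun T => muT g T * |f T|) (mem_univ ∅)
      have e3 : ∑ T ∈ univ.erase ∅, muT g T * |f T| = -∑ T ∈ univ.erase ∅, muT g T * f T := by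
        rw [← sum_neg_distrib]
        apply sum_congr rfl
        intro T hT
        rw [abs_of_nonpos (hfT T (mem_erase.1 hT).1)]
        ring
      have h5 : ∑ T ∈ univ.erase ∅, muT g T * f T ≤ 0 := by
        apply sum_nonpos
        intro T hT
        exact mul_nonpos_of_nonneg_of_nonpos (hmu0 T) (hfT T (mem_erase.1 hT).1)
      have h6 : 0 < muT g ∅ * f ∅ := by linarith
      have h7 : 0 < f ∅ := by
        by_contra hcon
        push Not at hcon
        have := mul_nonpos_of_nonneg_of_nonpos (hmu0 ∅) hcon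
        linarith
      rw [abs_of_pos h7] at e2 hub
      rw [← hmue] at hub
      have h8 : 2 ≤ Real.exp E := by
        rw [← Real.exp_log (show (0 : ℝ) < 2 by norm_num)]
        exact Real.exp_le_exp.2 (hlog.trans hEge)
      have h9 : muT g ∅ * f ∅ * 2 ≤ muT g ∅ * f ∅ * Real.exp E :=
        mul_le_mul_of_nonneg_left h8 h6.le
      have h10 : f ∅ * muT g ∅ * Real.exp E = muT g ∅ * f ∅ * Real.exp E := by ring
      rw [h10] at hub
      linarith

end Pool.Agent.N422.SL
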