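import Pool.Agent.N422.SL.AB

/-! Project SL: lower bound sieves near the limit. Author: helper422, after SL/AB of helper278. -/

set_option autoImplicit false

open Finset

namespace Pool.Agent.N422.SL

open Pool.Agent.N422.NW

/-- lower bound sieves, the main term is smaller than the density by a factor -/
def S_AB2 : Prop := ∀ (k : ℕ) (θ τ ε B : ℝ), 1 ≤ k → 0 < θ → θ ≤ 1 → 0 < τ → 0 < ε → ∃ Q0 : ℕ, ∀ Q : ℕ, Q0 ≤ Q →
  ∀ H : Finset ℕ, H.card = k → (∀ h ∈ H, (h : ℝ) ≤ (Q : ℝ) ^ B) → ∀ c : ℕ → ℕ → ℝ,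
  (∀ n, (∃ p ∈ PY Q θ, ∃ h ∈ H, p ∣ n + h) → wt Q c n ≤ 0) → (∀ n, wt Q c n ≤ 1) →
    mn Q c ≤ max 0 ((2 - Real.exp (k * Ein (2 * τ * θ) - τ - ε)) * ∏ p ∈ PY Q θ, (1 - ((om H p).card : ℝ) / p))

theorem t_AB2 (h1 : S_UBM) (h2 : S_AR2) (h3 : S_RS) (h4 : S_MER) : S_AB2 := by
  classical
  intro k θ τ ε B hk hθ hθ1 hτ hε
  obtain ⟨m, n, Q0, hm, hmn, hest⟩ := AB_est h3 h4 k θ τ ε B hk hθ hθ1 hτ hε
  refine ⟨Q0, ?_⟩
  intro Q hQ H hH hHB c
  obtain ⟨hlQ0, hest⟩ := hest Q hQ
  obtain ⟨hhalf, hE⟩ := hest H hH hHB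
  have hn0 : 0 < n := by omega
  have hnr : (0 : ℝ) < n := by exact_mod_cast hn0
  have hHne : H.Nonempty := by
    rw [← card_pos]
    omega
  have hPY : ∀ p ∈ PY Q θ, p.Prime ∧ 1 ≤ p ∧ p ≤ Q ∧ (p : ℝ) ≤ (Q : ℝ) ^ θ := by
    intro p hp
    unfold PY at hp
    rw [mem_filter, mem_Icc] at hp
    exact ⟨hp.2.1, hp.1.1, hp.1.2, hp.2.2⟩
  have hmean := AB_mean Q c
  have hM0 : 0 < Q.factorial := Nat.factorial_pos Q
  have hMr : (0 : ℝ) < Q.factorial := by exact_mod_cast hM0
  by_cases hfull : ∃ p ∈ PY Q θ, (om H p).card = p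
  · -- all classes are removed
    obtain ⟨p, hp, hcard⟩ := hfull
    have hpp := hPY p hp
    have homr : om H p = range p :=
      eq_of_subset_of_card_le (AB_om_sub H p) (by rw [card_range, hcard])
    have hhit : ∀ x : ℕ, ∃ h ∈ H, p ∣ x + h := by
      intro x
      rw [← AB_mem_om hpp.2.1 x, homr, mem_range]
      exact Nat.mod_lt _ hpp.2.1
    intro hw _
    refine le_trans ?_ (le_max_left _ _)
    rw [← hmean]
    apply div_nonpos_of_nonpos_of_nonneg _ hMr.le
    apply sum_nonpos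
    intro x _
    exact hw x ⟨p, hp, hhit x⟩
  · push Not at hfull
    -- the places
    obtain ⟨q, hq⟩ : ∃ q : Fin (PY Q θ).card → ℕ, q = (PY Q θ).orderEmbOfFin rfl := ⟨_, rfl⟩
    have hqmem : ∀ i, q i ∈ PY Q θ := fun i => by rw [hq]; exact (PY Q θ).orderEmbOfFin_mem rfl i
    have hqmono : StrictMono q := by rw [hq]; exact ((PY Q θ).orderEmbOfFin rfl).strictMono
    have himg : PY Q θ = univ.image q := by
      rw [hq]
      exact (Finset.image_orderEmbOfFin_univ (PY Q θ) rfl).symm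
    have hqsum : ∀ (G : ℕ → ℝ), ∑ i, G (q i) = ∑ p ∈ PY Q θ, G p := by
      intro G
      conv_rhs => rw [himg]
      rw [sum_image (fun a _ b _ hab => hqmono.injective hab)]
    have hqprod : ∀ (G : ℕ → ℝ), ∏ i, G (q i) = ∏ p ∈ PY Q θ, G p := by
      intro G
      conv_rhs => rw [himg]
      rw [prod_image (fun a _ b _ hab => hqmono.injective hab)]
    have hqsurj : ∀ p ∈ PY Q θ, ∃ i, q i = p := by
      intro p hp
      rw [himg, mem_image] at hp
      obtain ⟨i, -, hi⟩ := hp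
      exact ⟨i, hi⟩
    have hOm : ∀ i, om H (q i) ⊆ range (q i) ∧ 0 < (om H (q i)).card ∧ (om H (q i)).card < q i := by
      intro i
      have hpp := hPY _ (hqmem i)
      refine ⟨AB_om_sub H _, AB_om_pos hHne hpp.2.1, ?_⟩
      have h5 := card_le_card (AB_om_sub H (q i))
      rw [card_range] at h5
      have h6 := hfull _ (hqmem i)
      omega
    obtain ⟨f, hf1, hf2, hf3, hf4⟩ := h2 (PY Q θ).card q (fun i => om H (q i)) (fun i => AB_nu m n Q (q i)) n Q
      Q.factorial (fun d x => c d (x % d)) hqmono.injective (fun i => (hPY _ (hqmem i)).1) hOm hM0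
      (fun i => Nat.dvd_factorial (hPY _ (hqmem i)).2.1 (hPY _ (hqmem i)).2.2.1)
      (fun d hd => ⟨fun x => by simp only [Nat.add_mod_right], by
        rw [mem_Icc] at hd
        exact Nat.dvd_factorial (by omega) hd.2⟩)
      (fun d hd => by
        rw [mem_Icc] at hd
        obtain ⟨T, hT⟩ : ∃ T : Finset (Fin (PY Q θ).card), T = univ.filter (fun i => q i ∣ d) := ⟨_, rfl⟩
        rw [← hT]
        have h5 : ∑ i ∈ T, Real.log (q i) ≤ Real.log d := by
          have h6 : ∑ i ∈ T, Real.log (q i) = ∑ p ∈ T.image q, Real.log p := by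
            rw [sum_image (fun a _ b _ hab => hqmono.injective hab)]
          rw [h6]
          refine AB_lg (by omega) ?_
          intro p hp
          rw [mem_image] at hp
          obtain ⟨i, hi, rfl⟩ := hp
          rw [hT, mem_filter] at hi
          exact ⟨(hPY _ (hqmem i)).1, hi.2⟩
        have h7 : Real.log d ≤ Real.log Q :=
          Real.log_le_log (by exact_mod_cast hd.1) (by exact_mod_cast hd.2)
        have h8 : ∀ i, (AB_nu m n Q (q i) : ℝ) * Real.log Q ≤ n * Real.log (q i) := by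
          intro i
          have hpp := hPY _ (hqmem i)
          unfold AB_nu
          split_ifs with hc
          · exact (AB_blk_spec (m := m) hm hlQ0 hc
              (Real.log_le_log (by exact_mod_cast hpp.2.1) (by exact_mod_cast hpp.2.2.1))).2.2.1.le
          · have : 0 ≤ (n : ℝ) * Real.log (q i) := mul_nonneg hnr.le (Real.log_natCast_nonneg _)
            simpa using this
        have h9 : (∑ i ∈ T, (AB_nu m n Q (q i) : ℝ)) * Real.log Q ≤ n * Real.log Q := by
          rw [sum_mul]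
          refine (sum_le_sum fun i _ => h8 i).trans ?_
          rw [← mul_sum]
          exact mul_le_mul_of_nonneg_left (h5.trans h7) hnr.le
        have h10 := le_of_mul_le_mul_right h9 hlQ0
        exact_mod_cast h10)
    rw [hmean] at hf4
    obtain ⟨g, hg⟩ : ∃ g : Fin (PY Q θ).card → ℝ, g = fun i => ((om H (q i)).card : ℝ) / q i := ⟨_, rfl⟩
    have hqr : ∀ i, (0 : ℝ) < q i := fun i => by exact_mod_cast (hPY _ (hqmem i)).2.1
    have hg01 : ∀ i, 0 ≤ g i ∧ g i < 1 := by
      intro i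
      rw [hg]
      refine ⟨div_nonneg (Nat.cast_nonneg _) (Nat.cast_nonneg _), ?_⟩
      show ((om H (q i)).card : ℝ) / q i < 1
      rw [div_lt_one (hqr i)]
      exact_mod_cast (hOm i).2.2
    have hub := h1 (PY Q θ).card n g (fun i => AB_nu m n Q (q i)) f (τ / n) (fun i => ⟨(hg01 i).1, (hg01 i).2.le⟩)
      (fun i hi => by
        rw [hg]
        exact hhalf _ (hqmem i) hi) hf1 (by positivity)
    have hV : ∏ i, (1 - g i) = ∏ p ∈ PY Q θ, (1 - ((om H p).card : ℝ) / p) := by
      rw [← hqprod (fun p => 1 - ((om H p).card : ℝ) / p), hg]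
    have hV0 : 0 < ∏ i, (1 - g i) := prod_pos fun i _ => by linarith [(hg01 i).2]
    have hS : ∑ i, (if AB_nu m n Q (q i) = 0 then 0 else
        g i * (1 - Real.exp (-(2 * (AB_nu m n Q (q i)) * (τ / n)))) - g i ^ 2) =
        ∑ p ∈ PY Q θ, (if AB_nu m n Q p = 0 then 0 else
      ((om H p).card : ℝ) / p * (1 - Real.exp (-(2 * (AB_nu m n Q p) * (τ / n)))) -
        (((om H p).card : ℝ) / p) ^ 2) := by
      rw [← hqsum (fun p => if AB_nu m n Q p = 0 then 0 else
      ((om H p).card : ℝ) / p * (1 - Real.exp (-(2 * (AB_nu m n Q p) * (τ / n)))) -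
        (((om H p).card : ℝ) / p) ^ 2), hg]
    obtain ⟨E, hEd⟩ : ∃ E : ℝ, E = ∑ i, (if AB_nu m n Q (q i) = 0 then 0 else
        g i * (1 - Real.exp (-(2 * (AB_nu m n Q (q i)) * (τ / n)))) - g i ^ 2) - n * (τ / n) := ⟨_, rfl⟩
    have hEge : (k : ℝ) * Ein (2 * τ * θ) - τ - ε ≤ E := by
      rw [hEd, hS, mul_div_cancel₀ _ hnr.ne']
      linarith
    rw [← hEd] at hub
    have hmu0 : ∀ T, 0 ≤ muT g T := by
      intro T
      unfold muT
      apply prod_nonneg
      intro i _
      split_ifs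
      · exact (hg01 i).1
      · linarith [(hg01 i).2]
    have hf4' : ∑ T, muT g T * f T = mn Q c := by
      rw [hg]
      exact hf4
    intro hw hw1
    by_contra hpos
    push Not at hpos
    obtain ⟨hpos, hbig⟩ := max_lt_iff.1 hpos
    have hfT : ∀ T : Finset (Fin (PY Q θ).card), T ≠ ∅ → f T ≤ 0 := by
      intro T hT
      obtain ⟨i, hi⟩ := nonempty_iff_ne_empty.2 hT
      apply hf3 T 0
      intro x hx
      apply hw x
      have h5 := (AB_mem_om (hPY _ (hqmem i)).2.1 x).1 ((hx i).1 hi)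
      exact ⟨q i, hqmem i, h5⟩
    have hf1' : f ∅ ≤ 1 := hf3 ∅ 1 (fun x _ => hw1 x)
    have hmue : muT g ∅ = ∏ i, (1 - g i) := by
      unfold muT
      simp
    have e1 : muT g ∅ * f ∅ + ∑ T ∈ univ.erase ∅, muT g T * f T = mn Q c := by
      rw [← hf4']
      exact add_sum_erase univ (fun T => muT g T * f T) (mem_univ ∅)
    have e2 : muT g ∅ * |f ∅| + ∑ T ∈ univ.erase ∅, muT g T * |f T| = ∑ T, muT g T * |f T| :=
      add_sum_erase univ (fun T => muT g T * |f T|) (mem_univ ∅)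
    have e3 : ∑ T ∈ univ.erase ∅, muT g T * |f T| = -∑ T ∈ univ.erase ∅, muT g T * f T := by
      rw [← sum_neg_distrib]
      apply sum_congr rfl
      intro T hT
      rw [abs_of_nonpos (hfT T (mem_erase.1 hT).1)]
      ring
    have h5 : ∑ T ∈ univ.erase ∅, muT g T * f T ≤ 0 := by
      apply sum_nonpos
      intro T hT
      exact mul_nonpos_of_nonneg_of_nonpos (hmu0 T) (hfT T (mem_erase.1 hT).1)
    have h6 : 0 < muT g ∅ * f ∅ := by linarith
    have h7 : 0 < f ∅ := by
      by_contra hcon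
      push Not at hcon
      have := mul_nonpos_of_nonneg_of_nonpos (hmu0 ∅) hcon
      linarith
    rw [abs_of_pos h7] at e2 hub
    rw [← hmue] at hub
    have h10 : f ∅ * muT g ∅ * Real.exp E = muT g ∅ * f ∅ * Real.exp E := by ring
    rw [h10] at hub
    -- the mean is at most `(2 - e^E) V f(∅)`
    have h11 : mn Q c ≤ (2 - Real.exp E) * (muT g ∅ * f ∅) := by linarith
    have h12 : 0 < 2 - Real.exp E := by
      by_contra hcon
      push Not at hcon
      have := mul_nonpos_of_nonpos_of_nonneg hcon h6.le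
      linarith
    have h13 : (2 - Real.exp E) * (muT g ∅ * f ∅) ≤ (2 - Real.exp E) * (muT g ∅ * 1) :=
      mul_le_mul_of_nonneg_left (mul_le_mul_of_nonneg_left hf1' (hmu0 ∅)) h12.le
    have h14 : (2 - Real.exp E) * (muT g ∅ * 1) ≤ (2 - Real.exp (k * Ein (2 * τ * θ) - τ - ε)) * (muT g ∅ * 1) := by
      apply mul_le_mul_of_nonneg_right _ (by rw [mul_one]; exact hmu0 ∅)
      have := Real.exp_le_exp.2 hEge
      linarith
    have h15 := h11.trans (h13.trans h14)
    rw [mul_one, hmue, hV] at h15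
    linarith

end Pool.Agent.N422.SL
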