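import Pool.Agent.N422.SL.Stm
import Pool.Agent.N422.NW.JEN

/-! Project SL (helper422), part JA (helper79): the inequality of Jensen at the point `s` for analytic functions. -/

set_option autoImplicit false

open Complex Metric Real

namespace Pool.Agent.N422.SL

open Pool.Agent.N422.NW

lemma JA_norm_le {s : ℝ} (h0 : 0 < s) (h1 : s < 1) {w : ℂ} (hw : ‖w‖ ≤ 1) : ‖psi s w‖ ≤ 1 := by
  have hne := JEN_ne h0 h1 hw
  unfold psi
  rw [norm_div, div_le_one (norm_pos_iff.2 hne)]
  have e1 : Complex.normSq (w + s) ≤ Complex.normSq (1 + s * w) := by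
    have e2 : Complex.normSq w ≤ 1 := by
      rw [Complex.normSq_eq_norm_sq]
      nlinarith [norm_nonneg w]
    rw [Complex.normSq_apply] at e2
    rw [Complex.normSq_apply, Complex.normSq_apply]
    simp only [Complex.add_re, Complex.add_im, Complex.ofReal_re, Complex.ofReal_im, Complex.one_re,
      Complex.one_im, Complex.mul_re, Complex.mul_im, zero_mul, sub_zero, add_zero, zero_add]
    nlinarith [mul_nonneg (by nlinarith : 0 ≤ 1 - s ^ 2)
      (by linarith : 0 ≤ 1 - (w.re * w.re + w.im * w.im))]
  rw [Complex.normSq_eq_norm_sq, Complex.normSq_eq_norm_sq] at e1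
  exact (sq_le_sq₀ (norm_nonneg _) (norm_nonneg _)).1 e1

theorem t_JA : S_JA := by
  intro F s hF h0 h1 hP
  have han : AnalyticOnNhd ℂ (fun w => F (psi s w)) (closedBall 0 |(1 : ℝ)|) := by
    intro w hw
    rw [abs_one, mem_closedBall, dist_zero_right] at hw
    have h2 : AnalyticAt ℂ F (psi s w) := by
      refine hF _ ?_
      rw [mem_closedBall, dist_zero_right]
      exact JA_norm_le h0 h1 hw
    exact h2.fun_comp (JEN_an h0 h1 hw)
  constructor
  · refine MeromorphicOn.circleIntegrable_log_norm (f := fun w => F (psi s w)) ?_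
    exact han.meromorphicOn.mono_set sphere_subset_closedBall
  · have h2 := AnalyticOnNhd.circleAverage_log_norm one_ne_zero han (by
      change F (psi s 0) ≠ 0
      rw [JEN_zero]; exact hP)
    rw [JEN_zero] at h2
    rw [h2]
    refine le_add_of_nonneg_left (finsum_nonneg fun u => ?_)
    have hd : 0 ≤ MeromorphicOn.divisor (fun w => F (psi s w)) (closedBall 0 |(1 : ℝ)|) :=
      MeromorphicOn.AnalyticOnNhd.divisor_nonneg han
    have hdu : 0 ≤ MeromorphicOn.divisor (fun w => F (psi s w)) (closedBall 0 |(1 : ℝ)|) u := hd u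
    by_cases hu : u ∈ closedBall (0 : ℂ) |(1 : ℝ)|
    · refine mul_nonneg (by exact_mod_cast hdu) ?_
      rw [abs_one, mem_closedBall, dist_zero_right] at hu
      rw [one_mul, zero_sub, norm_neg]
      rcases eq_or_ne u 0 with h4 | h4
      · rw [h4, norm_zero, inv_zero, Real.log_zero]
      · exact Real.log_nonneg ((one_le_inv₀ (norm_pos_iff.2 h4)).2 hu)
    · rw [Function.locallyFinsuppWithin.apply_eq_zero_of_notMem _ hu, Int.cast_zero, zero_mul]

end Pool.Agent.N422.SL
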