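import Pool.Agent.N422.SL.Stm
import Pool.Agent.N422.NWS.EVAL

/-! Project SL, file RS (helper622): bounds for the entire exponential integral and the Riemann sum. -/

set_option autoImplicit false

open Finset

namespace Pool.Agent.N422.SL

open MeasureTheory

/-- the integrand -/
noncomputable def RS_f (y : ℝ) : ℝ := (1 - Real.exp (-y)) / y

lemma RS_nonneg {y : ℝ} (hy : 0 ≤ y) : 0 ≤ RS_f y := by
  unfold RS_f
  refine div_nonneg ?_ hy
  have : Real.exp (-y) ≤ 1 := Real.exp_le_one_iff.mpr (by linarith)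
  linarith

lemma RS_le_one {y : ℝ} (hy : 0 ≤ y) : RS_f y ≤ 1 := by
  unfold RS_f
  rcases hy.eq_or_lt with h | h
  · subst h; simp
  · rw [div_le_one h]
    have := Real.one_sub_le_exp_neg y
    linarith

lemma RS_low {y : ℝ} (hy : 0 < y) : 1 - y / 2 ≤ RS_f y := by
  unfold RS_f
  rw [le_div_iff₀ hy]
  have h1 := Real.quadratic_le_exp_of_nonneg hy.le
  have h2 : Real.exp (-y) * Real.exp y = 1 := by rw [← Real.exp_add]; simp
  have h3 : 0 < Real.exp (-y) := Real.exp_pos _
  have h4 : Real.exp (-y) * (1 + y + y ^ 2 / 2) ≤ 1 :=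
    (mul_le_mul_of_nonneg_left h1 h3.le).trans_eq h2
  have h5 : Real.exp (-y) ≤ 1 - y + y ^ 2 / 2 := by
    have h6 : (0 : ℝ) < 1 + y + y ^ 2 / 2 := by positivity
    have h7 : 1 ≤ (1 - y + y ^ 2 / 2) * (1 + y + y ^ 2 / 2) := by
      nlinarith [sq_nonneg (y ^ 2)]
    by_contra hc
    push Not at hc
    nlinarith [mul_lt_mul_of_pos_right hc h6]
  nlinarith

lemma RS_int {a b : ℝ} (ha : 0 ≤ a) (hb : 0 ≤ b) : IntervalIntegrable RS_f volume a b := by
  have hm : Measurable RS_f := by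
    unfold RS_f
    exact (measurable_const.sub (Real.measurable_exp.comp measurable_neg)).div measurable_id
  rw [intervalIntegrable_iff]
  refine Measure.integrableOn_of_bounded (M := 1) ?_ hm.aestronglyMeasurable ?_
  · rw [Set.uIoc]
    exact measure_Ioc_lt_top.ne
  · filter_upwards [ae_restrict_mem measurableSet_uIoc] with y hy
    have hy0 : 0 ≤ y := by
      rw [Set.mem_uIoc] at hy
      rcases hy with h | h <;> linarith [h.1]
    rw [Real.norm_eq_abs, abs_of_nonneg (RS_nonneg hy0)]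
    exact RS_le_one hy0

lemma RS_Ein (x : ℝ) : Ein x = ∫ y in (0 : ℝ)..x, RS_f y := rfl

lemma RS_piece_le {a b : ℝ} (ha : 0 ≤ a) (hab : a ≤ b) : ∫ y in a..b, RS_f y ≤ b - a := by
  have h := intervalIntegral.integral_mono_on (μ := volume) hab (RS_int ha (ha.trans hab))
    (intervalIntegrable_const (c := (1 : ℝ)))
    (fun _ hy => RS_le_one (ha.trans hy.1))
  simpa using h

lemma RS_piece_nonneg {a b : ℝ} (ha : 0 ≤ a) (hab : a ≤ b) : 0 ≤ ∫ y in a..b, RS_f y :=
  intervalIntegral.integral_nonneg hab (fun _ hy => RS_nonneg (ha.trans hy.1))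

lemma RS_add {a b c : ℝ} (ha : 0 ≤ a) (hb : 0 ≤ b) (hc : 0 ≤ c) :
    (∫ y in a..b, RS_f y) + ∫ y in b..c, RS_f y = ∫ y in a..c, RS_f y :=
  intervalIntegral.integral_add_adjacent_intervals (RS_int ha hb) (RS_int hb hc)

theorem t_EIN : S_EIN := by
  refine ⟨fun x hx => ?_, fun x hx => ?_⟩
  · refine le_of_forall_pos_le_add (fun ε hε => ?_)
    obtain ⟨δ, hδ0, hδ1, hδx, hδε⟩ : ∃ δ : ℝ, 0 < δ ∧ δ ≤ 1 ∧ δ ≤ x ∧ 2 * δ ≤ ε :=
      ⟨min (min 1 x) (ε / 2), by positivity, (min_le_left _ _).trans (min_le_left _ _),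
        (min_le_left _ _).trans (min_le_right _ _), by
          have := min_le_right (min 1 x) (ε / 2); linarith⟩
    have h1 := RS_add le_rfl hδ0.le hx.le
    have h2 := RS_piece_nonneg le_rfl hδ0.le
    have h3 := NWS.t_E1 δ x hδ0 hδ1 hδx
    have h0 : (0 : ℝ) ∉ Set.uIcc δ x := by
      rw [Set.uIcc_of_le hδx]
      intro h
      linarith [h.1]
    have h4 : ∫ y in δ..x, RS_f y = (∫ y in δ..x, 1 / y) - ∫ y in δ..x, Real.exp (-y) / y := by
      rw [← intervalIntegral.integral_sub]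
      · refine intervalIntegral.integral_congr (fun y hy => ?_)
        simp only [RS_f]
        rw [sub_div]
      · refine ContinuousOn.intervalIntegrable (fun y hy => ?_)
        have hy0 : y ≠ 0 := fun h => h0 (h ▸ hy)
        exact (continuousAt_const.div continuousAt_id hy0).continuousWithinAt
      · refine ContinuousOn.intervalIntegrable (fun y hy => ?_)
        have hy0 : y ≠ 0 := fun h => h0 (h ▸ hy)
        exact ((Real.continuous_exp.comp continuous_neg).continuousAt.div continuousAt_id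
          hy0).continuousWithinAt
    rw [integral_one_div h0, Real.log_div hx.ne' hδ0.ne'] at h4
    rw [RS_Ein]
    linarith
  · rw [RS_Ein]
    have h1 : ∫ y in (0 : ℝ)..x, (1 - y / 2) = x - x ^ 2 / 4 := by
      have hi : IntervalIntegrable (fun y : ℝ => y / 2) volume 0 x :=
        (continuous_id.div_const 2).intervalIntegrable _ _
      rw [intervalIntegral.integral_sub intervalIntegrable_const hi]
      rw [intervalIntegral.integral_div, integral_id]
      simp
      ring
    rw [← h1]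
    refine intervalIntegral.integral_mono_on_of_le_Ioo hx ?_ (RS_int le_rfl hx) (fun y hy => RS_low hy.1)
    exact (continuous_const.sub (continuous_id.div_const 2)).intervalIntegrable _ _

lemma RS_step {a b : ℝ} (ha : 0 < a) (hab : a ≤ b) :
    ∫ y in a..b, RS_f y ≤ Real.log (b / a) * ((1 - Real.exp (-a)) + (b - a)) := by
  have hb : 0 < b := lt_of_lt_of_le ha hab
  have h0 : (0 : ℝ) ∉ Set.uIcc a b := by
    rw [Set.uIcc_of_le hab]
    intro h
    linarith [h.1]
  have h1 : ∫ y in a..b, RS_f y ≤ ∫ y in a..b, (1 - Real.exp (-b)) * (1 / y) := by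
    refine intervalIntegral.integral_mono_on hab (RS_int ha.le hb.le) ?_ (fun y hy => ?_)
    · refine ContinuousOn.intervalIntegrable (fun y hy => ?_)
      have hy0 : y ≠ 0 := fun h => h0 (h ▸ hy)
      exact (continuousAt_const.mul (continuousAt_const.div continuousAt_id hy0)).continuousWithinAt
    · unfold RS_f
      have hy0 : 0 < y := lt_of_lt_of_le ha hy.1
      rw [mul_one_div]
      refine div_le_div_of_nonneg_right ?_ hy0.le
      have : Real.exp (-b) ≤ Real.exp (-y) := Real.exp_le_exp.mpr (by linarith [hy.2])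
      linarith
  rw [intervalIntegral.integral_const_mul, integral_one_div h0] at h1
  have h2 : 1 - Real.exp (-b) ≤ (1 - Real.exp (-a)) + (b - a) := by
    have h3 : Real.exp (-b) = Real.exp (-a) * Real.exp (-(b - a)) := by
      rw [← Real.exp_add]; congr 1; ring
    have h4 := Real.one_sub_le_exp_neg (b - a)
    have h5 : Real.exp (-a) ≤ 1 := Real.exp_le_one_iff.mpr (by linarith)
    have h6 : 0 < Real.exp (-a) := Real.exp_pos _
    have h7 : Real.exp (-a) * (1 - (b - a)) ≤ Real.exp (-b) := by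
      rw [h3]
      exact mul_le_mul_of_nonneg_left h4 h6.le
    nlinarith
  have h8 : 0 ≤ Real.log (b / a) := Real.log_nonneg ((one_le_div ha).mpr hab)
  calc ∫ y in a..b, RS_f y ≤ (1 - Real.exp (-b)) * Real.log (b / a) := h1
    _ ≤ ((1 - Real.exp (-a)) + (b - a)) * Real.log (b / a) := mul_le_mul_of_nonneg_right h2 h8
    _ = _ := mul_comm _ _

lemma RS_sum (c : ℝ) (hc : 0 < c) (J : ℕ) (hJ : 1 ≤ J) :
    ∫ y in c..(c * J), RS_f y ≤ ∑ j ∈ Ico 1 J, Real.log (((j : ℝ) + 1) / j) *
      ((1 - Real.exp (-(c * j))) + c) := by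
  induction J, hJ using Nat.le_induction with
  | base => simp
  | succ J hJ ih =>
    rw [sum_Ico_succ_top hJ]
    have hJ0 : (0 : ℝ) < J := by exact_mod_cast hJ
    have h1 := RS_add (a := c) (b := c * J) (c := c * ((J + 1 : ℕ) : ℝ)) hc.le (by positivity) (by positivity)
    have h2 := RS_step (a := c * J) (b := c * ((J + 1 : ℕ) : ℝ)) (by positivity)
      (by push_cast; nlinarith)
    have h3 : c * ((J + 1 : ℕ) : ℝ) / (c * J) = ((J : ℝ) + 1) / J := by
      push_cast
      rw [mul_div_mul_left _ _ hc.ne']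
    have h4 : c * ((J + 1 : ℕ) : ℝ) - c * J = c := by push_cast; ring
    rw [h3, h4] at h2
    linarith

lemma RS_log (J : ℕ) (hJ : 1 ≤ J) :
    ∑ j ∈ Ico 1 J, Real.log (((j : ℝ) + 1) / j) = Real.log J := by
  induction J, hJ using Nat.le_induction with
  | base => simp
  | succ J hJ ih =>
    rw [sum_Ico_succ_top hJ, ih]
    have hJ0 : (0 : ℝ) < J := by exact_mod_cast hJ
    rw [Real.log_div (by positivity) hJ0.ne']
    push_cast
    ring

theorem t_RS : S_RS := by
  intro θ τ ε hθ hθ1 hτ hε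
  -- the choice of `n`
  obtain ⟨n, hn1, hnθ, hnε⟩ : ∃ n : ℕ, 1 ≤ n ∧ 1 ≤ θ * n ∧
      4 * τ / n + 2 * τ / n * Real.log n ≤ 3 / 4 * ε := by
    have h1 : Filter.Tendsto (fun n : ℕ => 4 * τ / (n : ℝ) + 2 * τ * (Real.log n / (n : ℝ)))
        Filter.atTop (nhds (0 + 2 * τ * 0)) := by
      refine Filter.Tendsto.add (tendsto_const_div_atTop_nhds_zero_nat (4 * τ)) ?_
      refine Filter.Tendsto.const_mul _ ?_
      have h2 := Real.isLittleO_log_id_atTop.tendsto_div_nhds_zero
      exact h2.comp tendsto_natCast_atTop_atTop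
    have h2 : ∀ᶠ n : ℕ in Filter.atTop, 4 * τ / (n : ℝ) + 2 * τ * (Real.log n / (n : ℝ)) < 3 / 4 * ε := by
      refine h1.eventually (gt_mem_nhds ?_)
      rw [mul_zero, add_zero]
      positivity
    have h3 : ∀ᶠ n : ℕ in Filter.atTop, 1 / θ ≤ (n : ℝ) :=
      tendsto_natCast_atTop_atTop.eventually_ge_atTop _
    obtain ⟨n, ha, hb, hc⟩ := (h2.and (h3.and (Filter.eventually_ge_atTop 1))).exists
    refine ⟨n, hc, ?_, ?_⟩
    · rw [div_le_iff₀ hθ] at hb
      linarith
    · have h4 : 2 * τ / (n : ℝ) * Real.log n = 2 * τ * (Real.log n / (n : ℝ)) := by ring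
      rw [h4]
      exact ha.le
  have hn0 : (0 : ℝ) < n := by exact_mod_cast hn1
  refine ⟨1, n, ε / (4 * n), one_pos, hn1, by positivity, fun h hh => ?_⟩
  set J : ℕ := ⌊θ * n⌋₊ with hJdef
  have hJ1 : 1 ≤ J := by
    rw [hJdef, Nat.one_le_floor_iff]
    exact hnθ
  have hJle : (J : ℝ) ≤ θ * n := Nat.floor_le (by positivity)
  have hJlt : θ * n < J + 1 := Nat.lt_floor_add_one _
  have hJn : J ≤ n := by
    have : (J : ℝ) ≤ n := hJle.trans (by nlinarith)
    exact_mod_cast this
  have hK : (Ico 1 n).filter (fun j : ℕ => (j : ℝ) + 1 ≤ θ * n) = Ico 1 J := by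
    ext j
    simp only [mem_filter, mem_Ico]
    constructor
    · rintro ⟨⟨h1, h2⟩, h3⟩
      refine ⟨h1, ?_⟩
      have : j + 1 ≤ J := Nat.le_floor (by push_cast; exact h3)
      omega
    · rintro ⟨h1, h2⟩
      refine ⟨⟨h1, by omega⟩, ?_⟩
      have : ((j + 1 : ℕ) : ℝ) ≤ J := by exact_mod_cast h2
      push_cast at this
      linarith
  rw [hK]
  set c : ℝ := 2 * τ / n with hc
  have hc0 : 0 < c := by positivity
  -- lower bound for the sum
  have hw : ∀ j : ℕ, 2 * (j : ℝ) * (τ / n) = c * j := by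
    intro j
    rw [hc]; ring
  have h1 : ∑ j ∈ Ico 1 J, (Real.log (((j : ℝ) + 1) / j) * (1 - Real.exp (-(c * j))) - ε / (4 * n)) ≤
      ∑ j ∈ Ico 1 J, h j * (1 - Real.exp (-(2 * j * (τ / n)))) := by
    refine sum_le_sum (fun j hj => ?_)
    rw [mem_Ico] at hj
    rw [hw]
    have h2 := hh j hj.1 (by omega)
    have h3 : Real.exp (-(c * j)) ≤ 1 := Real.exp_le_one_iff.mpr (by
      have : 0 ≤ c * j := by positivity
      linarith)
    have h4 : 0 < Real.exp (-(c * j)) := Real.exp_pos _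
    have h5 : 0 < ε / (4 * n) := by positivity
    nlinarith [mul_le_mul_of_nonneg_right h2 (by linarith : 0 ≤ 1 - Real.exp (-(c * j)))]
  refine le_trans ?_ h1
  rw [sum_sub_distrib, sum_const, Nat.card_Ico, nsmul_eq_mul]
  have h2 := RS_sum c hc0 J hJ1
  have h3 : ∑ j ∈ Ico 1 J, Real.log (((j : ℝ) + 1) / j) * ((1 - Real.exp (-(c * j))) + c) =
      ∑ j ∈ Ico 1 J, Real.log (((j : ℝ) + 1) / j) * (1 - Real.exp (-(c * j))) + c * Real.log J := by
    rw [← RS_log J hJ1, mul_sum, ← sum_add_distrib]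
    refine sum_congr rfl (fun j _ => by ring)
  rw [h3] at h2
  have h4 : Real.log J ≤ Real.log n := Real.log_le_log (by exact_mod_cast hJ1) (by exact_mod_cast hJn)
  have h5 := RS_piece_le (a := 0) (b := c) le_rfl hc0.le
  have hcJ : c * J ≤ 2 * τ * θ := by
    rw [hc, div_mul_eq_mul_div, div_le_iff₀ hn0]
    nlinarith
  have h6 := RS_piece_le (a := c * J) (b := 2 * τ * θ) (by positivity) hcJ
  have h7 : 2 * τ * θ - c * J ≤ c := by
    have : 2 * τ * θ ≤ c * (J + 1) := by
      rw [hc, div_mul_eq_mul_div, le_div_iff₀ hn0]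
      nlinarith
    linarith
  have h8 := RS_add (a := 0) (b := c) (c := c * J) le_rfl hc0.le (by positivity)
  have h9 := RS_add (a := 0) (b := c * J) (c := 2 * τ * θ) le_rfl (by positivity) (by positivity)
  rw [RS_Ein, ← h9, ← h8]
  have h10 : ((J - 1 : ℕ) : ℝ) * (ε / (4 * n)) ≤ ε / 4 := by
    have : ((J - 1 : ℕ) : ℝ) ≤ n := by
      have : J - 1 ≤ n := by omega
      exact_mod_cast this
    calc ((J - 1 : ℕ) : ℝ) * (ε / (4 * n)) ≤ n * (ε / (4 * n)) :=
          mul_le_mul_of_nonneg_right this (by positivity)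
      _ = ε / 4 := by field_simp
  have h11 : c * Real.log J ≤ c * Real.log n := mul_le_mul_of_nonneg_left h4 hc0.le
  have h12 : 4 * τ / n = 2 * c := by rw [hc]; ring
  rw [h12] at hnε
  linarith

end Pool.Agent.N422.SL
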