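import Pool.Agent.N422.SL.Stm
import Pool.Agent.N422.NW.JEN

/-! Project SL (helper422), part XI (helper415): the rate of absolute value `1` on the circle and its mean values. -/

set_option autoImplicit false

open Complex Metric Real

namespace Pool.Agent.N422.SL

open Pool.Agent.N422.NW

lemma XI_log {y : ℂ} (hy : y ≠ 1) : Real.log ‖1 - y‖ ≤ -y.re + ‖y‖ ^ 2 / 2 := by
  have h0 : 0 < ‖1 - y‖ := norm_pos_iff.2 (sub_ne_zero.2 (Ne.symm hy))
  have h1 : Real.log (‖1 - y‖ ^ 2) ≤ ‖1 - y‖ ^ 2 - 1 := Real.log_le_sub_one_of_pos (by positivity)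
  rw [Real.log_pow] at h1
  have h2 : ‖1 - y‖ ^ 2 = 1 - 2 * y.re + ‖y‖ ^ 2 := by
    rw [← Complex.normSq_eq_norm_sq, ← Complex.normSq_eq_norm_sq, Complex.normSq_apply, Complex.normSq_apply]
    simp only [Complex.sub_re, Complex.sub_im, Complex.one_re, Complex.one_im]
    ring
  rw [h2] at h1
  push_cast at h1
  linarith

lemma XI_den {a : ℝ} (h0 : 0 < a) (h1 : a < 1) {v : ℕ} {z : ℂ} (hz : ‖z‖ ≤ 1) : (1 - (a : ℂ) * z ^ v) ≠ 0 := by
  intro h
  have h2 : (a : ℂ) * z ^ v = 1 := by linear_combination -h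
  have h3 : ‖(a : ℂ) * z ^ v‖ = 1 := by rw [h2, norm_one]
  rw [norm_mul, Complex.norm_real, Real.norm_eq_abs, abs_of_pos h0, norm_pow] at h3
  have h4 : ‖z‖ ^ v ≤ 1 := pow_le_one₀ (norm_nonneg _) hz
  have h5 : 0 ≤ ‖z‖ ^ v := by positivity
  nlinarith

lemma XI_psi_le {s : ℝ} (h0 : 0 < s) (h1 : s < 1) {w : ℂ} (hw : ‖w‖ ≤ 1) : ‖psi s w‖ ≤ 1 := by
  have hne := JEN_ne h0 h1 hw
  unfold psi
  rw [norm_div, div_le_one (norm_pos_iff.2 hne)]
  have h2 : ‖w + s‖ ^ 2 ≤ ‖1 + s * w‖ ^ 2 := by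
    have h3 : w.re ^ 2 + w.im ^ 2 ≤ 1 := by
      have h4 : ‖w‖ ^ 2 ≤ 1 := pow_le_one₀ (norm_nonneg _) hw
      rw [← Complex.normSq_eq_norm_sq, Complex.normSq_apply] at h4
      nlinarith
    rw [← Complex.normSq_eq_norm_sq, ← Complex.normSq_eq_norm_sq, Complex.normSq_apply, Complex.normSq_apply]
    simp only [Complex.add_re, Complex.add_im, Complex.mul_re, Complex.mul_im, Complex.ofReal_re,
      Complex.ofReal_im, Complex.one_re, Complex.one_im]
    have h5 : 0 ≤ (1 - s ^ 2) * (1 - (w.re ^ 2 + w.im ^ 2)) :=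
      mul_nonneg (by nlinarith) (by linarith)
    nlinarith
  exact le_of_sq_le_sq h2 (norm_nonneg _)

theorem t_XI (hA : S_AV) : S_XI := by
  intro v t hv ht
  set s := Real.exp (-t) with hs
  have h0 : 0 < s := Real.exp_pos _
  have h1 : s < 1 := by
    rw [hs, ← Real.exp_zero]; exact Real.exp_lt_exp.2 (by linarith)
  obtain ⟨a, ha⟩ : ∃ a : ℝ, a = Real.exp (-(v * t)) := ⟨_, rfl⟩
  have hsa : s ^ v = a := by
    rw [ha, hs, ← Real.exp_nat_mul]; ring_nf
  have ha0 : 0 < a := by rw [ha]; exact Real.exp_pos _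
  have ha1 : a < 1 := by
    rw [← hsa]; exact pow_lt_one₀ h0.le h1 (by omega)
  have ha2 : Real.exp (-(2 * v * t)) = a ^ 2 := by
    rw [ha, ← Real.exp_nat_mul]; ring_nf
  have hxi : ∀ z : ℂ, xi t v z = (1 - (a : ℂ) * (z⁻¹) ^ v) / (1 - (a : ℂ) * z ^ v) := by
    intro z
    rw [ha]
    rfl
  have hinv : ∀ z : ℂ, ‖z‖ = 1 → z⁻¹ = (starRingEnd ℂ) z := fun z hz => Complex.inv_eq_conj hz
  have hone : ∀ z : ℂ, ‖z‖ = 1 → ‖xi t v z‖ = 1 := by
    intro z hz
    rw [hxi, norm_div, div_eq_one_iff_eq (norm_ne_zero_iff.2 (XI_den ha0 ha1 hz.le))]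
    have e : 1 - (a : ℂ) * (z⁻¹) ^ v = (starRingEnd ℂ) (1 - (a : ℂ) * z ^ v) := by
      rw [map_sub, map_one, map_mul, map_pow, Complex.conj_ofReal, hinv z hz]
    rw [e, Complex.norm_conj]
  refine ⟨hone, ?_, ?_, ?_⟩
  · rw [hxi]
    have e : (1 : ℂ) - (a : ℂ) * (((s : ℝ) : ℂ)⁻¹) ^ v = 0 := by
      rw [← hsa, Complex.ofReal_pow, ← mul_pow, mul_inv_cancel₀ (by exact_mod_cast h0.ne'), one_pow, sub_self]
    rw [e, zero_div]
  · refine ⟨fun z => (z ^ v - a) / (1 - (a : ℂ) * z ^ v), ?_, ?_⟩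
    · intro z hz
      rw [mem_closedBall, dist_zero_right] at hz
      exact AnalyticAt.div (by fun_prop) (by fun_prop) (XI_den ha0 ha1 hz)
    · intro z hz
      change (z ^ v - a) / (1 - (a : ℂ) * z ^ v) = _
      rw [hxi, ← mul_div_assoc]
      congr 1
      have e : z ^ v * (z⁻¹) ^ v = 1 := by rw [← mul_pow, mul_inv_cancel₀ hz, one_pow]
      linear_combination (a : ℂ) * e
  · intro g hg0 hg1
    have hpsi1 : ∀ w : ℂ, ‖w‖ = 1 → ‖psi s w‖ = 1 := (hA v t ht).1
    have hd : ∀ w : ℂ, ‖w‖ ≤ 1 → DifferentiableAt ℂ (psi s) w := fun w hw =>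
      (JEN_an h0 h1 hw).differentiableAt
    have hgx : ∀ w : ℂ, ‖w‖ = 1 → ‖(g : ℂ) * xi t v (psi s w)‖ = g := by
      intro w hw
      rw [norm_mul, hone _ (hpsi1 w hw), mul_one, Complex.norm_real, Real.norm_eq_abs, abs_of_nonneg hg0]
    have hne1 : ∀ w : ℂ, ‖w‖ = 1 → (g : ℂ) * xi t v (psi s w) ≠ 1 := by
      intro w hw h
      have h2 := hgx w hw
      rw [h, norm_one] at h2
      linarith
    -- continuity on the circle
    have hcx : ContinuousOn (fun w => xi t v (psi s w)) (sphere 0 1) := by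
      have hcp : ContinuousOn (psi s) (sphere 0 1) := fun w hw => by
        rw [mem_sphere, dist_zero_right] at hw
        exact (hd w hw.le).continuousAt.continuousWithinAt
      have e : (fun w => xi t v (psi s w)) =
          fun w => (1 - (a : ℂ) * ((psi s w)⁻¹) ^ v) / (1 - (a : ℂ) * (psi s w) ^ v) := by
        funext w
        exact hxi _
      rw [e]
      refine ContinuousOn.div ?_ ?_ ?_
      · refine continuousOn_const.sub (continuousOn_const.mul (ContinuousOn.pow (hcp.inv₀ ?_) v))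
        intro w hw h
        rw [mem_sphere, dist_zero_right] at hw
        have h2 := hpsi1 w hw
        rw [h, norm_zero] at h2
        exact zero_ne_one h2
      · exact continuousOn_const.sub (continuousOn_const.mul (hcp.pow v))
      · intro w hw
        rw [mem_sphere, dist_zero_right] at hw
        exact XI_den ha0 ha1 (hpsi1 w hw).le
    have hint : CircleIntegrable (fun w => Real.log ‖1 - (g : ℂ) * xi t v (psi s w)‖) 0 1 := by
      refine ContinuousOn.circleIntegrable zero_le_one (ContinuousOn.log ?_ ?_)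
      · exact (continuousOn_const.sub (continuousOn_const.mul hcx)).norm
      · intro w hw
        rw [mem_sphere, dist_zero_right] at hw
        exact norm_ne_zero_iff.2 (sub_ne_zero.2 (Ne.symm (hne1 w hw)))
    refine ⟨hint, ?_⟩
    -- the majorant
    obtain ⟨H, hH⟩ : ∃ H : ℂ → ℂ, H = fun w => -((g : ℂ) * (((1 - a ^ 2 : ℝ) : ℂ) / (1 - (a : ℂ) * (psi s w) ^ v) -
      (a : ℂ) * (psi s w) ^ v)) + ((g ^ 2 / 2 : ℝ) : ℂ) := ⟨_, rfl⟩
    have hHd : ∀ w : ℂ, ‖w‖ ≤ 1 → DifferentiableAt ℂ H w := by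
      intro w hw
      rw [hH]
      have h2 : DifferentiableAt ℂ (fun w => (psi s w) ^ v) w := (hd w hw).pow v
      have h3 : DifferentiableAt ℂ (fun w => 1 - (a : ℂ) * (psi s w) ^ v) w :=
        (differentiableAt_const _).sub (h2.const_mul _)
      exact ((((differentiableAt_const _).div h3 (XI_den ha0 ha1 (XI_psi_le h0 h1 hw))).sub
        (h2.const_mul _)).const_mul _).neg.add (differentiableAt_const _)
    have hHc : ContinuousOn H (sphere 0 1) := fun w hw => by
      rw [mem_sphere, dist_zero_right] at hw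
      exact (hHd w hw.le).continuousAt.continuousWithinAt
    have hHi : CircleIntegrable (fun w => (H w).re) 0 1 :=
      ContinuousOn.circleIntegrable zero_le_one (Complex.continuous_re.comp_continuousOn hHc)
    have havg := JEN_avg hHd
    have hH0 : (H 0).re = -(g * (1 - a ^ 2)) + g ^ 2 / 2 := by
      have e1 : H 0 = ((-(g * ((1 - a ^ 2) / (1 - a * a) - a * a)) + g ^ 2 / 2 : ℝ) : ℂ) := by
        rw [hH]
        simp only [JEN_zero]
        rw [← Complex.ofReal_pow, hsa]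
        push_cast
        ring
      have e2 : (1 : ℝ) - a * a ≠ 0 := by nlinarith
      rw [e1, Complex.ofReal_re, show (1 : ℝ) - a ^ 2 = 1 - a * a by ring, div_self e2]
    have hle : Real.circleAverage (fun w => Real.log ‖1 - (g : ℂ) * xi t v (psi s w)‖) 0 1 ≤
        Real.circleAverage (fun w => (H w).re) 0 1 := by
      refine Real.circleAverage_mono hint hHi ?_
      intro w hw
      rw [abs_one, mem_sphere, dist_zero_right] at hw
      refine (XI_log (hne1 w hw)).trans (le_of_eq ?_)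
      rw [hgx w hw, hH]
      obtain ⟨z, hz⟩ : ∃ z, z = psi s w := ⟨_, rfl⟩
      have hz1 : ‖z‖ = 1 := by rw [hz]; exact hpsi1 w hw
      have hz0 : z ≠ 0 := by
        intro h
        rw [h, norm_zero] at hz1
        exact zero_ne_one hz1
      beta_reduce
      rw [← hz]
      have hD := XI_den ha0 ha1 (v := v) hz1.le
      have e1 : xi t v z = ((1 - a ^ 2 : ℝ) : ℂ) / (1 - (a : ℂ) * z ^ v) - (a : ℂ) * (z⁻¹) ^ v := by
        rw [hxi, div_eq_iff hD, sub_mul, div_mul_cancel₀ _ hD]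
        have e : z ^ v * (z⁻¹) ^ v = 1 := by rw [← mul_pow, mul_inv_cancel₀ hz0, one_pow]
        push_cast
        linear_combination (-(a : ℂ) ^ 2) * e
      have e2 : ((z⁻¹) ^ v).re = (z ^ v).re := by
        rw [hinv z hz1, ← map_pow, Complex.conj_re]
      have e3 : (xi t v z).re = (((1 - a ^ 2 : ℝ) : ℂ) / (1 - (a : ℂ) * z ^ v) - (a : ℂ) * z ^ v).re := by
        rw [e1, Complex.sub_re, Complex.sub_re, Complex.re_ofReal_mul, Complex.re_ofReal_mul, e2]
      rw [Complex.re_ofReal_mul, e3, Complex.add_re, Complex.neg_re, Complex.re_ofReal_mul, Complex.ofReal_re]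
    rw [havg, hH0] at hle
    rw [ha2]
    nlinarith [sq_nonneg g]

end Pool.Agent.N422.SL
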