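import Pool.Agent.N422.SL.FIN2
import Pool.Agent.N422.SL.AB
import Pool.Agent.N422.SL.AR
import Pool.Agent.N422.SL.JA
import Pool.Agent.N422.SL.RS
import Pool.Agent.N422.SL.UBM
import Pool.Agent.N422.SL.XI
import Pool.Agent.N422.NW.JEN
import Pool.Agent.N422.NW.MER

/-! Project SL: assembly. Author: helper422 (parts: helpers 79, 415, 7, 568, 622, 278; NW: 427, 603). -/

set_option autoImplicit false

namespace Pool.Agent.N422.SL

open Finset Pool.Agent.N422.NW

theorem ab : S_AB := t_AB (t_UBM t_JA (t_XI t_AV) t_AV) t_AR2 t_RS t_MER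

theorem ab2 : S_AB2 := t_AB2 (t_UBM t_JA (t_XI t_AV) t_AV) t_AR2 t_RS t_MER

end Pool.Agent.N422.SL
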