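import Pool.Agent.N422.SL.FIN
import Pool.Agent.N422.SL.AB2

/-! Project SL: lower bound sieves near the limit. Author: helper422. -/

set_option autoImplicit false

open Finset

namespace Pool.Agent.N422.SL

open Pool.Agent.N422.NW

/-- lower bound sieves, `s < 2k` -/
theorem lower_s (hAB : S_AB2) (hE : S_EIN) (k : ℕ) (hk : 1 ≤ k) (s ε B : ℝ) (hs1 : 1 ≤ s) (hs : s < 2 * k)
    (hε : 0 < ε) :
    ∃ Q0 : ℕ, ∀ Q : ℕ, Q0 ≤ Q → ∀ H : Finset ℕ, H.card = k → (∀ h ∈ H, (h : ℝ) ≤ (Q : ℝ) ^ B) →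
    ∀ c : ℕ → ℕ → ℝ, (∀ n, (∃ p ∈ PY Q (1 / s), ∃ h ∈ H, p ∣ n + h) → wt Q c n ≤ 0) → (∀ n, wt Q c n ≤ 1) →
    mn Q c ≤ max 0 ((2 - (1 - ε) * Real.exp ((2 * k - s) ^ 2 / (4 * k))) *
      ∏ p ∈ PY Q (1 / s), (1 - ((om H p).card : ℝ) / p)) := by
  have hkr : (0 : ℝ) < k := by exact_mod_cast hk
  have hs0 : 0 < s := by linarith
  obtain ⟨x, hx⟩ : ∃ x : ℝ, x = (2 * k - s) / k := ⟨_, rfl⟩
  have h2ks : 0 < 2 * k - s := by linarith
  have hx0 : 0 < x := by rw [hx]; positivity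
  have hkx : k * x = 2 * k - s := by rw [hx]; field_simp
  obtain ⟨Q0, hQ0⟩ := hAB k (1 / s) (s * x / 2) ε B hk (by positivity)
    ((div_le_one hs0).2 hs1) (by positivity) hε
  refine ⟨Q0, fun Q hQ H hH hHB c hc0 hc1 => (hQ0 Q hQ H hH hHB c hc0 hc1).trans ?_⟩
  apply max_le_max le_rfl
  have hprod : 0 ≤ ∏ p ∈ PY Q (1 / s), (1 - ((om H p).card : ℝ) / p) := by
    refine prod_nonneg fun p hp => ?_
    unfold PY at hp
    rw [mem_filter] at hp
    have h3 : (0 : ℝ) < p := by exact_mod_cast hp.2.1.pos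
    rw [sub_nonneg, div_le_one h3]
    exact_mod_cast om_le
  apply mul_le_mul_of_nonneg_right _ hprod
  have e1 : 2 * (s * x / 2) * (1 / s) = x := by field_simp
  rw [e1]
  have h1 := hE.2 x hx0.le
  have h2 := mul_le_mul_of_nonneg_left h1 hkr.le
  have h3 : k * (x - x ^ 2 / 4) - s * x / 2 = k * x ^ 2 / 4 := by
    have : s = 2 * k - k * x := by linarith
    rw [this]
    ring
  have h4 : (2 * k - s) ^ 2 / (4 * k) = k * x ^ 2 / 4 := by
    rw [← hkx]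
    field_simp
  have h5 : (1 - ε) ≤ Real.exp (-ε) := by
    have := Real.add_one_le_exp (-ε)
    linarith
  have h6 : (1 - ε) * Real.exp ((2 * k - s) ^ 2 / (4 * k)) ≤ Real.exp (k * Ein x - s * x / 2 - ε) := by
    calc (1 - ε) * Real.exp ((2 * k - s) ^ 2 / (4 * k)) ≤ Real.exp (-ε) * Real.exp ((2 * k - s) ^ 2 / (4 * k)) :=
        mul_le_mul_of_nonneg_right h5 (Real.exp_pos _).le
      _ = Real.exp (k * x ^ 2 / 4 - ε) := by
        rw [← Real.exp_add, h4]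
        congr 1
        ring
      _ ≤ Real.exp (k * Ein x - s * x / 2 - ε) := Real.exp_le_exp.2 (by linarith)
  linarith

end Pool.Agent.N422.SL
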