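import Pool.Agent.N422.NW.Stm

/-! Project SL (helper422): limits of upper and lower bound sieves of dimension `k`: definitions and statements of the
self-contained pieces. -/

set_option autoImplicit false

open Finset

namespace Pool.Agent.N422.SL

open Pool.Agent.N422.NW

/-- the law of the set of places hit -/
noncomputable def muT {N : ℕ} (g : Fin N → ℝ) (T : Finset (Fin N)) : ℝ := ∏ i, if i ∈ T then g i else 1 - g i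

/-- sums of functions each of which depends only on a set of places of total level at most `n` -/
def LevT {N : ℕ} (ν : Fin N → ℕ) (n : ℕ) (f : Finset (Fin N) → ℝ) : Prop :=
  ∃ (m : ℕ) (S : Fin m → Finset (Fin N)) (h : Fin m → Finset (Fin N) → ℝ),
    (∀ x, ∑ i ∈ S x, ν i ≤ n) ∧ (∀ x T T', (∀ i ∈ S x, (i ∈ T ↔ i ∈ T')) → h x T = h x T') ∧ ∀ T, f T = ∑ x, h x T

/-- the inequality of Jensen at the point `s` for analytic functions (SL/JA) -/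
def S_JA : Prop := ∀ (F : ℂ → ℂ) (s : ℝ), AnalyticOnNhd ℂ F (Metric.closedBall 0 1) → 0 < s → s < 1 →
  F (s : ℂ) ≠ 0 → CircleIntegrable (fun w => Real.log ‖F (psi s w)‖) 0 1 ∧
    Real.log ‖F (s : ℂ)‖ ≤ Real.circleAverage (fun w => Real.log ‖F (psi s w)‖) 0 1

/-- the rate, of absolute value `1` on the circle; `xi t 0 z = 0` -/
noncomputable def xi (t : ℝ) (v : ℕ) (z : ℂ) : ℂ :=
  (1 - (Real.exp (-(v * t)) : ℂ) * (z⁻¹) ^ v) / (1 - (Real.exp (-(v * t)) : ℂ) * z ^ v)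

/-- the properties of the rate (SL/XI) -/
def S_XI : Prop := ∀ (v : ℕ) (t : ℝ), 1 ≤ v → 0 < t →
  (∀ z : ℂ, ‖z‖ = 1 → ‖xi t v z‖ = 1) ∧ xi t v (Real.exp (-t) : ℝ) = 0 ∧
  (∃ A : ℂ → ℂ, AnalyticOnNhd ℂ A (Metric.closedBall 0 1) ∧ ∀ z : ℂ, z ≠ 0 → A z = z ^ v * xi t v z) ∧
  ∀ g : ℝ, 0 ≤ g → g ≤ 1 / 2 →
    CircleIntegrable (fun w => Real.log ‖1 - (g : ℂ) * xi t v (psi (Real.exp (-t)) w)‖) 0 1 ∧
    Real.circleAverage (fun w => Real.log ‖1 - (g : ℂ) * xi t v (psi (Real.exp (-t)) w)‖) 0 1 ≤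
      -(g * (1 - Real.exp (-(2 * v * t)))) + g ^ 2

/-- the inequality in the model (SL/UBM) -/
def S_UBM : Prop := ∀ (N n : ℕ) (g : Fin N → ℝ) (ν : Fin N → ℕ) (f : Finset (Fin N) → ℝ) (t : ℝ),
  (∀ i, 0 ≤ g i ∧ g i ≤ 1) → (∀ i, ν i ≠ 0 → g i ≤ 1 / 2) → LevT ν n f → 0 < t →
  |f ∅| * (∏ i, (1 - g i)) * Real.exp (∑ i, (if ν i = 0 then 0 else
    g i * (1 - Real.exp (-(2 * ν i * t))) - g i ^ 2) - n * t) ≤ ∑ T, muT g T * |f T|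

/-- from the model to periodic functions (SL/AR): `f T` is the mean of `w(x) = ∑_d F d x` over the `x` for which `T` is
the set of the `i` with `x % q i ∈ Om i` -/
def S_AR2 : Prop := ∀ (N : ℕ) (q : Fin N → ℕ) (Om : Fin N → Finset ℕ) (ν : Fin N → ℕ) (n Q M : ℕ) (F : ℕ → ℕ → ℝ),
  Function.Injective q → (∀ i, (q i).Prime) → (∀ i, Om i ⊆ range (q i) ∧ 0 < (Om i).card ∧ (Om i).card < q i) →
  0 < M → (∀ i, q i ∣ M) → (∀ d ∈ Icc 1 Q, Function.Periodic (F d) d ∧ d ∣ M) →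
  (∀ d ∈ Icc 1 Q, ∑ i ∈ univ.filter (fun i => q i ∣ d), ν i ≤ n) →
  ∃ f : Finset (Fin N) → ℝ, LevT ν n f ∧
    (∀ (T : Finset (Fin N)) (b : ℝ), (∀ x : ℕ, (∀ i, (i ∈ T ↔ x % q i ∈ Om i)) → b ≤ ∑ d ∈ Icc 1 Q, F d x) →
      b ≤ f T) ∧
    (∀ (T : Finset (Fin N)) (b : ℝ), (∀ x : ℕ, (∀ i, (i ∈ T ↔ x % q i ∈ Om i)) → ∑ d ∈ Icc 1 Q, F d x ≤ b) →
      f T ≤ b) ∧
    ∑ T, muT (fun i => ((Om i).card : ℝ) / q i) T * f T = (∑ x ∈ range M, ∑ d ∈ Icc 1 Q, F d x) / M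

/-- the entire exponential integral -/
noncomputable def Ein (x : ℝ) : ℝ := ∫ y in (0 : ℝ)..x, (1 - Real.exp (-y)) / y

/-- bounds for it (SL/EIN) -/
def S_EIN : Prop := (∀ x : ℝ, 0 < x → Real.log x + Real.eulerMascheroniConstant ≤ Ein x) ∧
  (∀ x : ℝ, 0 ≤ x → x - x ^ 2 / 4 ≤ Ein x)

/-- the Riemann sum (SL/RS) -/
def S_RS : Prop := ∀ θ τ ε : ℝ, 0 < θ → θ ≤ 1 → 0 < τ → 0 < ε → ∃ (m n : ℕ) (η : ℝ), 0 < m ∧ m ≤ n ∧ 0 < η ∧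
  ∀ h : ℕ → ℝ, (∀ j, m ≤ j → j < n → Real.log (((j : ℝ) + 1) / j) - η ≤ h j) →
    Ein (2 * τ * θ) - ε ≤ ∑ j ∈ (Ico m n).filter (fun j : ℕ => (j : ℝ) + 1 ≤ θ * n),
      h j * (1 - Real.exp (-(2 * j * (τ / n))))

/-- the weight `w(n) = ∑_{d ≤ Q} c_d(n mod d)` -/
noncomputable def wt (Q : ℕ) (c : ℕ → ℕ → ℝ) (n : ℕ) : ℝ := ∑ d ∈ Icc 1 Q, c d (n % d)

/-- its mean value -/
noncomputable def mn (Q : ℕ) (c : ℕ → ℕ → ℝ) : ℝ := ∑ d ∈ Icc 1 Q, (∑ a ∈ range d, c d a) / d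

/-- the residue classes removed -/
def om (H : Finset ℕ) (p : ℕ) : Finset ℕ := (range p).filter (fun a => ∃ h ∈ H, p ∣ a + h)

/-- the primes up to `Q^θ` -/
noncomputable def PY (Q : ℕ) (θ : ℝ) : Finset ℕ := (Icc 1 Q).filter (fun p : ℕ => p.Prime ∧ (p : ℝ) ≤ (Q : ℝ) ^ θ)

/-- the main inequalities (SL/AB) -/
def S_AB : Prop := ∀ (k : ℕ) (θ τ ε B : ℝ), 1 ≤ k → 0 < θ → θ ≤ 1 → 0 < τ → 0 < ε → ∃ Q0 : ℕ, ∀ Q : ℕ, Q0 ≤ Q →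
  ∀ H : Finset ℕ, H.card = k → (∀ h ∈ H, (h : ℝ) ≤ (Q : ℝ) ^ B) → ∀ c : ℕ → ℕ → ℝ,
  ((∀ n, 0 ≤ wt Q c n) → (∀ n, (∀ p ∈ PY Q θ, ∀ h ∈ H, ¬ p ∣ n + h) → 1 ≤ wt Q c n) →
    Real.exp (k * Ein (2 * τ * θ) - τ - ε) * ∏ p ∈ PY Q θ, (1 - ((om H p).card : ℝ) / p) ≤ mn Q c) ∧
  (Real.log 2 ≤ k * Ein (2 * τ * θ) - τ - ε → (∀ n, (∃ p ∈ PY Q θ, ∃ h ∈ H, p ∣ n + h) → wt Q c n ≤ 0) →
    mn Q c ≤ 0)

end Pool.Agent.N422.SL
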